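import Pool.Agent.Lib.MP_a9a507_gt.Criterion

/-! # MP_a9a507: an arithmetic criterion in terms of the weights -/

open scoped ContDiff Topology
open Complex

set_option linter.unusedSectionVars false
set_option linter.unusedDecidableInType false

namespace Pool.Agent.Lib.MP_a9a507_gt

variable {ι κ : Type} [Fintype ι] [DecidableEq ι] [Fintype κ] [DecidableEq κ]
variable {ρ σ : Type} [Fintype ρ] [DecidableEq ρ] [Fintype σ] [DecidableEq σ]

/-- If a coordinate and its derivatives vanish at a point, the frame is degenerate. -/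
lemma row_ne (b : ι → κ) (e : κ ⊕ (ρ ⊕ σ) ≃ ι) (w : ρ → ι → ℝ) {G : (σ → ℝ) → ι → ℂ}
    (hG : ContDiff ℝ ∞ G) (y : σ → ℝ) (hdet : frameDet b e (wsweep w G) (up y) ≠ 0) (i : ι)
    (h0 : G y i = 0) (h1 : ∀ j, pd G j y i = 0) : False := by
  apply hdet
  unfold frameDet
  refine Matrix.det_eq_zero_of_row_eq_zero i fun q => ?_
  simp only [frame, Matrix.of_apply]
  rcases e.symm q with k | a | j
  · simp only [Sum.elim_inl]
    rw [wsweep_up, h0, mul_zero, ite_self]
  · simp only [Sum.elim_inr]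
    rw [pd_wsweep_inl w hG, low_up, h0, mul_zero, mul_zero]
  · simp only [Sum.elim_inr]
    rw [pd_wsweep_inr w hG, low_up, h1, mul_zero]

/-- A point of the torus at which no coordinate vanishes. -/
lemma exists_generic (b : ι → κ) (e : κ ⊕ (ρ ⊕ σ) ≃ ι) (w : ρ → ι → ℝ) {r : κ → ℝ}
    {G : (σ → ℝ) → ι → ℂ} (hF : IsLagrangianTorus b r e (wsweep w G)) :
    ∃ y, ∀ i, G y i ≠ 0 := by
  have hG : ContDiff ℝ ∞ G := contDiff_of_wsweep w G hF.smooth
  have hopen : ∀ i, IsOpen {y | G y i ≠ 0} := fun i =>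
    isOpen_ne_fun ((continuous_apply i).comp hG.continuous) continuous_const
  have hdense : ∀ i, Dense {y | G y i ≠ 0} := by
    intro i
    rw [dense_iff_inter_open]
    rintro V hV ⟨y, hy⟩
    by_contra hne
    have hz : ∀ y' ∈ V, G y' i = 0 := by
      intro y' hy'
      by_contra h
      exact hne ⟨y', hy', h⟩
    refine row_ne b e w hG y (hF.immersed _) i (hz y hy) fun j => ?_
    have h1 := hasDerivAt_line (Pi.single j 1)
      ((hG.differentiable (by simp)).differentiableAt (x := y))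
    have h1' := (hasDerivAt_pi.1 h1) i
    have h2 : (fun t : ℝ => G (y + t • (Pi.single j 1 : σ → ℝ)) i) =ᶠ[𝓝 0] fun _ => (0 : ℂ) := by
      have hc : Continuous fun t : ℝ => y + t • (Pi.single j 1 : σ → ℝ) := by fun_prop
      have h3 : ∀ᶠ t : ℝ in 𝓝 0, y + t • (Pi.single j 1 : σ → ℝ) ∈ V := by
        apply hc.continuousAt.eventually_mem
        apply hV.mem_nhds
        simpa using hy
      filter_upwards [h3] with t ht
      exact hz _ ht
    exact h1'.unique ((hasDerivAt_const (0 : ℝ) (0 : ℂ)).congr_of_eventuallyEq h2)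
  have h := dense_iInter_of_isOpen hopen hdense
  obtain ⟨y, hy⟩ := h.nonempty
  exact ⟨y, fun i => Set.mem_iInter.1 hy i⟩

/-- **Arithmetic criterion**: if the weights of some real infinitesimal rotation (plus constants
on the blocks) are integral at all coordinates but `i`, the torus does not meet `z_i = 0`. -/
theorem ne_of_arith (b : ι → κ) (e : κ ⊕ (ρ ⊕ σ) ≃ ι) (w : ρ → ι → ℝ) {r : κ → ℝ}
    {G : (σ → ℝ) → ι → ℂ} (hF : IsLagrangianTorus b r e (wsweep w G)) (i j : ι) (hij : j ≠ i)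
    (hb : b j = b i) (α : κ → ℝ) (β : ρ → ℝ) (hint : ∀ l, l ≠ i → ∃ n : ℤ, wt b w α β l = n)
    (hnot : ∀ n : ℤ, wt b w α β i ≠ n) (x : ρ ⊕ σ → ℝ) : wsweep w G x i ≠ 0 := by
  obtain ⟨ys, hys⟩ := exists_generic b e w hF
  rw [wsweep_eq]
  refine mul_ne_zero (E_ne _) fun h0 => ?_
  set y := low x with hy
  have hwang : ∀ (z : σ → ℝ) (l : ι), wang w (Sum.elim β z : ρ ⊕ σ → ℝ) l =
      wt b w α β l - α (b l) := by
    intro z l
    unfold wang wt
    simp only [Sum.elim_inl]
    rw [add_sub_cancel_left]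
    exact Finset.sum_congr rfl fun a _ => mul_comm _ _
  have hE : ∀ l, l ≠ i → E (wt b w α β l - α (b l)) = E (-α (b l)) := by
    intro l hl
    obtain ⟨n, hn⟩ := hint l hl
    rw [hn, sub_eq_add_neg, E_add, E_int, one_mul]
  have hsame : SamePoint b (wsweep w G (Sum.elim β y)) (wsweep w G (up y)) := by
    refine ⟨fun k => E (-α k), fun k => norm_E _, fun l => ?_⟩
    rw [wsweep_up, wsweep_eq]
    have hlow : low (Sum.elim β y : ρ ⊕ σ → ℝ) = y := rfl
    rw [hlow]
    by_cases hl : l = i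
    · rw [hl, h0]; simp
    · rw [hwang, hE l hl]
  obtain ⟨m, hm⟩ := hF.embedded _ _ hsame
  have hβ : ∀ a, β a = (m (Sum.inl a) : ℝ) := by
    intro a
    have h1 := congrFun hm (Sum.inl a)
    simpa [shift, up] using h1
  obtain ⟨u, hu, hper⟩ := hF.periodic (up ys) (Sum.elim (fun a => m (Sum.inl a)) (fun _ => 0))
  have hshift : (shift (up ys) (Sum.elim (fun a => m (Sum.inl a)) (fun _ => 0)) :
      ρ ⊕ σ → ℝ) = Sum.elim β ys := by
    funext a
    rcases a with a | a
    · simp [shift, up, hβ]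
    · simp [shift, up]
  rw [hshift, wsweep_up] at hper
  have hphase : ∀ l, E (wt b w α β l - α (b l)) = u (b l) := by
    intro l
    have h1 := hper l
    rw [wsweep_eq, hwang] at h1
    have hlow : low (Sum.elim β ys : ρ ⊕ σ → ℝ) = ys := rfl
    rw [hlow] at h1
    exact mul_right_cancel₀ (hys l) h1
  have h2 : E (wt b w α β i - α (b i)) = E (-α (b i)) := by
    rw [hphase, ← hb, ← hphase j, hE j hij]
  obtain ⟨n, hn⟩ := E_eq_iff h2
  exact hnot n (by linarith)

/-- **Circles with all weights but two equal**, and these two different. -/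
theorem circle_two (e : Unit ⊕ (Unit ⊕ σ) ≃ ι) (τ₀ : ℝ)
    (w : Unit → ι → ℝ) {G : (σ → ℝ) → ι → ℂ}
    (hF : IsMonotoneTorus (fun _ => ()) τ₀ e (wsweep w G)) (p m : ι) (c₀ : ℝ)
    (hw₀ : ∀ l, l ≠ p → l ≠ m → w () l = c₀) (hne : w () p ≠ w () m) :
    ∃ i, ∀ x, wsweep w G x i ≠ 0 := by
  have hpm : p ≠ m := fun h => hne (by rw [h])
  by_contra hcon
  push Not at hcon
  obtain ⟨v, hv⟩ : ∃ v : ι → ℝ, ∀ l, v l = w () l - c₀ := ⟨_, fun _ => rfl⟩
  have hw : ∀ l, l ≠ p → l ≠ m → v l = 0 := fun l h1 h2 => by rw [hv, hw₀ l h1 h2, sub_self]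
  have hnev : v p ≠ v m := by rw [hv, hv]; intro h; apply hne; linarith
  have hwt : ∀ (t : ℝ) (l : ι), wt (fun _ => ()) w (fun _ => -t * c₀) (fun _ => t) l =
      t * v l := by
    intro t l; rw [hv]; simp [wt]; ring
  -- the arithmetic criterion for the two coordinates
  have harith : ∀ p' m' : ι, p' ≠ m' → (∀ l, l ≠ p' → l ≠ m' → v l = 0) →
      v p' ≠ v m' → v p' ≠ 0 ∧ ∃ n : ℤ, v m' = n * v p' := by
    intro p' m' hpm' hw' hne'
    obtain ⟨x, hx⟩ := hcon m'
    by_cases hp0 : v p' = 0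
    · exfalso
      have hm0 : v m' ≠ 0 := fun h => hne' (by rw [hp0, h])
      refine ne_of_arith (fun _ => ()) e w hF.torus m' p' hpm' rfl
        (fun _ => -(1 / (2 * v m')) * c₀)
        (fun _ => 1 / (2 * v m')) (fun l hl => ⟨0, ?_⟩) (fun n hn => ?_) x hx
      · rw [hwt]
        by_cases hlp : l = p'
        · rw [hlp, hp0]; simp
        · rw [hw' l hlp hl]; simp
      · rw [hwt] at hn
        have h4 : (1 : ℝ) / (2 * v m') * v m' = 1 / 2 := by field_simp
        rw [h4] at hn
        have h5 : (2 * n : ℝ) = 1 := by linarith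
        have h6 : (2 * n : ℤ) = 1 := by exact_mod_cast h5
        omega
    · refine ⟨hp0, ?_⟩
      by_contra hno
      push Not at hno
      refine ne_of_arith (fun _ => ()) e w hF.torus m' p' hpm' rfl
        (fun _ => -(1 / v p') * c₀)
        (fun _ => 1 / v p') (fun l hl => ?_) (fun n hn => ?_) x hx
      · rw [hwt]
        by_cases hlp : l = p'
        · exact ⟨1, by rw [hlp]; field_simp; simp⟩
        · exact ⟨0, by rw [hw' l hlp hl]; simp⟩
      · rw [hwt] at hn
        apply hno n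
        rw [← hn]
        field_simp
  obtain ⟨hp0, n, hn⟩ := harith p m hpm hw hnev
  obtain ⟨hm0, n', hn'⟩ := harith m p hpm.symm (fun l h1 h2 => hw l h2 h1) hnev.symm
  have h1 : (n' * n : ℝ) * v p = 1 * v p := by
    rw [mul_assoc, ← hn, ← hn', one_mul]
  have h2 : (n' * n : ℝ) = 1 := mul_right_cancel₀ hp0 h1
  have h4 : n' * n = 1 := by exact_mod_cast h2
  have h5 : n = 1 ∨ n = -1 := by
    rcases Int.isUnit_iff.1 (IsUnit.of_mul_eq_one_right n' h4) with h | h
    · exact Or.inl h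
    · exact Or.inr h
  have h6 : v m = -v p := by
    rcases h5 with h | h
    · exfalso; apply hnev; rw [hn, h]; simp
    · rw [hn, h]; simp
  -- the criterion of the positive weight
  have hsum : ∑ l, v l = 0 := by
    rw [← Finset.add_sum_erase _ _ (Finset.mem_univ p),
      ← Finset.add_sum_erase _ _ (Finset.mem_erase.2 ⟨hpm.symm, Finset.mem_univ m⟩),
      Finset.sum_eq_zero (s := (Finset.univ.erase p).erase m)]
    · rw [h6]; ring
    · intro l hl
      have h2 := (Finset.mem_erase.1 hl).1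
      have h3 := (Finset.mem_erase.1 (Finset.mem_erase.1 hl).2).1
      exact hw l h3 h2
  have hone : ∀ i : ι, 0 < v i → (∀ l, l ≠ i → v l ≤ 0) → False := by
    intro i hi hl
    obtain ⟨x, hx⟩ := hcon i
    refine ne_of_oneUp (fun _ => ()) e τ₀ w hF i
      ⟨fun _ => -1 * c₀, fun _ => 1, ?_, ?_, ?_⟩ x hx
    · simp only [hwt, one_mul]; exact hsum
    · rw [hwt, one_mul]; exact hi
    · intro l h; rw [hwt, one_mul]; exact hl l h
  rcases lt_or_gt_of_ne hp0 with h | h
  · refine hone m (by rw [h6]; linarith) fun l hl => ?_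
    by_cases hlp : l = p
    · rw [hlp]; exact h.le
    · rw [hw l hlp hl]
  · refine hone p h fun l hl => ?_
    by_cases hlm : l = m
    · rw [hlm, h6]; linarith
    · rw [hw l hl hlm]

end Pool.Agent.Lib.MP_a9a507_gt
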