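import Pool.Agent.Lib.MP_a9a507_gt.Defs

/-! # MP_a9a507: derivatives and frames of swept tori -/

open scoped ContDiff
open Complex

set_option linter.unusedSectionVars false
set_option linter.unusedDecidableInType false

namespace Pool.Agent.Lib.MP_a9a507_gt

variable {ι κ τ : Type} [Fintype ι] [DecidableEq ι] [Fintype κ] [DecidableEq κ]
  [Fintype τ] [DecidableEq τ]
variable {ρ σ : Type} [Fintype ρ] [DecidableEq ρ] [Fintype σ] [DecidableEq σ]

/-- The unit complex number at angle `θ` turns. -/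
noncomputable def E (θ : ℝ) : ℂ := Complex.exp (2 * Real.pi * (θ : ℂ) * I)

lemma E_add (a b : ℝ) : E (a + b) = E a * E b := by
  unfold E; rw [← Complex.exp_add]; congr 1; push_cast; ring

lemma E_zero : E 0 = 1 := by simp [E]

lemma E_ne (θ : ℝ) : E θ ≠ 0 := Complex.exp_ne_zero _

lemma norm_E (θ : ℝ) : ‖E θ‖ = 1 := by
  unfold E
  rw [show (2 * Real.pi * (θ : ℂ) * I) = ((2 * Real.pi * θ : ℝ) : ℂ) * I by push_cast; ring]
  exact Complex.norm_exp_ofReal_mul_I _

lemma conj_mul_self_of_norm {u : ℂ} (hu : ‖u‖ = 1) : (starRingEnd ℂ) u * u = 1 := by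
  rw [← Complex.normSq_eq_conj_mul_self, Complex.normSq_eq_norm_sq, hu]; simp

lemma conj_E_mul (θ : ℝ) : (starRingEnd ℂ) (E θ) * E θ = 1 := conj_mul_self_of_norm (norm_E θ)

lemma E_int (n : ℤ) : E (n : ℝ) = 1 := by
  unfold E
  rw [Complex.exp_eq_one_iff]
  exact ⟨n, by push_cast; ring⟩

lemma E_eq_iff {a b : ℝ} (h : E a = E b) : ∃ n : ℤ, a = b + n := by
  unfold E at h
  rw [Complex.exp_eq_exp_iff_exists_int] at h
  obtain ⟨n, hn⟩ := h
  refine ⟨n, ?_⟩
  have h2 : (2 * Real.pi * I : ℂ) ≠ 0 := Complex.two_pi_I_ne_zero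
  have h3 : (2 * Real.pi * I : ℂ) * (a : ℂ) = (2 * Real.pi * I) * ((b + n : ℝ) : ℂ) := by
    push_cast; linear_combination hn
  have h4 := mul_left_cancel₀ h2 h3
  exact_mod_cast h4

lemma exists_E {u : ℂ} (hu : ‖u‖ = 1) : ∃ θ : ℝ, E θ = u := by
  refine ⟨u.arg / (2 * Real.pi), ?_⟩
  unfold E
  have h2 : (Real.pi : ℂ) ≠ 0 := by exact_mod_cast Real.pi_ne_zero
  rw [show (2 * Real.pi * ((u.arg / (2 * Real.pi) : ℝ) : ℂ) * I) = (u.arg : ℂ) * I by
    push_cast; field_simp]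
  have := Complex.norm_mul_exp_arg_mul_I u
  rw [hu] at this
  simpa using this

lemma hasDerivAt_E (p q t : ℝ) :
    HasDerivAt (fun s : ℝ => E (p + s * q)) (E (p + t * q) * (2 * Real.pi * (q : ℂ) * I)) t := by
  unfold E
  have h1 : HasDerivAt (fun s : ℝ => p + s * q) q t := by
    simpa using ((hasDerivAt_id t).mul_const q).const_add p
  have h2 := h1.ofReal_comp
  have h3 := (h2.const_mul (2 * Real.pi : ℂ)).mul_const I
  exact h3.cexp

lemma contDiff_E : ContDiff ℝ ∞ E := by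
  unfold E
  have h1 : ContDiff ℝ ∞ (fun θ : ℝ => (θ : ℂ)) := Complex.ofRealCLM.contDiff
  exact ((contDiff_const.mul h1).mul contDiff_const).cexp

/-- The `σ` coordinates. -/
def low {R : Type} (x : R ⊕ σ → ℝ) : σ → ℝ := fun j => x (Sum.inr j)

lemma contDiff_low {R : Type} [Fintype R] : ContDiff ℝ ∞ (low : (R ⊕ σ → ℝ) → σ → ℝ) := by
  unfold low
  exact contDiff_pi.2 fun j => contDiff_apply ℝ ℝ _

/-- The embedding of the `σ` coordinates. -/
def up {R : Type} (y : σ → ℝ) : R ⊕ σ → ℝ := Sum.elim (fun _ => 0) y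

lemma contDiff_up {R : Type} [Fintype R] : ContDiff ℝ ∞ (up : (σ → ℝ) → (R ⊕ σ → ℝ)) := by
  refine contDiff_pi.2 fun j => ?_
  rcases j with j | j
  · exact contDiff_const
  · exact contDiff_apply ℝ ℝ _

lemma low_up {R : Type} (y : σ → ℝ) : low (up y : R ⊕ σ → ℝ) = y := rfl

lemma low_add_smul {R : Type} (x v : R ⊕ σ → ℝ) (t : ℝ) :
    low (x + t • v) = low x + t • low v := rfl

lemma contDiff_slice {H : ℝ → (σ → ℝ) → ι → ℂ}
    (h : ContDiff ℝ ∞ (fun p : ℝ × (σ → ℝ) => H p.1 p.2)) (t : ℝ) : ContDiff ℝ ∞ (H t) :=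
  h.comp (contDiff_prodMk_right t)

lemma hasDerivAt_line {V : Type} [NormedAddCommGroup V] [NormedSpace ℝ V] {f : (τ → ℝ) → V}
    {x : τ → ℝ} (v : τ → ℝ) (hf : DifferentiableAt ℝ f x) :
    HasDerivAt (fun t : ℝ => f (x + t • v)) (fderiv ℝ f x v) 0 :=
  hf.hasFDerivAt.hasLineDerivAt v

lemma E_sum (s : Finset ι) (θ : ι → ℝ) : ∏ i ∈ s, E (θ i) = E (∑ i ∈ s, θ i) := by
  induction s using Finset.induction_on with
  | empty => simp [E_zero]
  | insert a s ha ih => rw [Finset.prod_insert ha, Finset.sum_insert ha, E_add, ih]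

lemma contDiff_frameDet (b : ι → κ) (e : κ ⊕ τ ≃ ι) {f : (τ → ℝ) → ι → ℂ}
    (hf : ContDiff ℝ ∞ f) : ContDiff ℝ ∞ (frameDet b e f) := by
  have h1 : ∀ i a, ContDiff ℝ ∞ (fun x => frame b e f x i a) := by
    intro i a
    unfold frame
    simp only [Matrix.of_apply]
    rcases e.symm a with k | j
    · simp only [Sum.elim_inl]
      by_cases h : b i = k
      · simp only [if_pos h]
        exact contDiff_const.mul (contDiff_pi.1 hf i)
      · simp only [if_neg h]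
        exact contDiff_const
    · simp only [Sum.elim_inr]
      unfold pd
      have h2 : ContDiff ℝ ∞ (fderiv ℝ f) := hf.fderiv_right (by simp)
      have h3 : ContDiff ℝ ∞ (fun x => fderiv ℝ f x (Pi.single j 1)) :=
        h2.clm_apply contDiff_const
      exact contDiff_pi.1 h3 i
  unfold frameDet
  simp only [Matrix.det_apply]
  refine ContDiff.sum fun p _ => ?_
  have h4 : ContDiff ℝ ∞ (fun x => ∏ i, frame b e f x (p i) i) :=
    contDiff_prod fun i _ => h1 _ _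
  have h5 : (fun x => Equiv.Perm.sign p • ∏ i, frame b e f x (p i) i) =
      fun x => ((Equiv.Perm.sign p : ℤ) : ℂ) * ∏ i, frame b e f x (p i) i := by
    funext x
    rw [Units.smul_def, zsmul_eq_mul]
  rw [h5]
  exact contDiff_const.mul h4

lemma wsweep_eq (w : ρ → ι → ℝ) (G : (σ → ℝ) → ι → ℂ) (x : ρ ⊕ σ → ℝ) (i : ι) :
    wsweep w G x i = E (wang w x i) * G (low x) i := rfl

lemma wang_add_smul (w : ρ → ι → ℝ) (x v : ρ ⊕ σ → ℝ) (t : ℝ) (i : ι) :
    wang w (x + t • v) i = wang w x i + t * wang w v i := by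
  unfold wang
  rw [Finset.mul_sum, ← Finset.sum_add_distrib]
  refine Finset.sum_congr rfl fun a _ => ?_
  simp only [Pi.add_apply, Pi.smul_apply, smul_eq_mul]; ring

lemma wang_up (w : ρ → ι → ℝ) (y : σ → ℝ) (i : ι) : wang w (up y : ρ ⊕ σ → ℝ) i = 0 := by
  unfold wang up; simp

lemma wsweep_up (w : ρ → ι → ℝ) (G : (σ → ℝ) → ι → ℂ) (y : σ → ℝ) :
    wsweep w G (up y) = G y := by
  funext i; rw [wsweep_eq, wang_up, E_zero, one_mul, low_up]

lemma wang_inl (w : ρ → ι → ℝ) (a : ρ) (i : ι) :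
    wang w (Pi.single (Sum.inl a) 1 : ρ ⊕ σ → ℝ) i = w a i := by
  unfold wang
  rw [Finset.sum_eq_single a]
  · simp
  · intro a' _ h
    rw [Pi.single_apply, if_neg, mul_zero]
    intro h2; exact h (Sum.inl.inj h2)
  · simp

lemma wang_inr (w : ρ → ι → ℝ) (j : σ) (i : ι) :
    wang w (Pi.single (Sum.inr j) 1 : ρ ⊕ σ → ℝ) i = 0 := by
  unfold wang
  refine Finset.sum_eq_zero fun a _ => ?_
  rw [Pi.single_apply, if_neg (by simp), mul_zero]

lemma contDiff_wang (w : ρ → ι → ℝ) (i : ι) :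
    ContDiff ℝ ∞ (fun x : ρ ⊕ σ → ℝ => wang w x i) := by
  unfold wang
  exact ContDiff.sum fun a _ => contDiff_const.mul (contDiff_apply ℝ ℝ _)

lemma contDiff_of_wsweep (w : ρ → ι → ℝ) (G : (σ → ℝ) → ι → ℂ)
    (h : ContDiff ℝ ∞ (wsweep w G)) : ContDiff ℝ ∞ G := by
  have h2 : G = fun y => wsweep w G (up y) := by funext y; rw [wsweep_up]
  rw [h2]
  exact h.comp contDiff_up

lemma contDiff_wsweep (w : ρ → ι → ℝ) {G : (σ → ℝ) → ι → ℂ}
    (h : ContDiff ℝ ∞ G) : ContDiff ℝ ∞ (wsweep w G) := by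
  refine contDiff_pi.2 fun i => ?_
  have h1 : ContDiff ℝ ∞ (fun x : ρ ⊕ σ → ℝ => E (wang w x i)) :=
    contDiff_E.comp (contDiff_wang w i)
  have h2 : ContDiff ℝ ∞ (fun x : ρ ⊕ σ → ℝ => G (low x)) := h.comp contDiff_low
  exact h1.mul (contDiff_pi.1 h2 i)

lemma fderiv_wsweep (w : ρ → ι → ℝ) {G : (σ → ℝ) → ι → ℂ}
    (hG : ContDiff ℝ ∞ G) (x v : ρ ⊕ σ → ℝ) (i : ι) :
    fderiv ℝ (wsweep w G) x v i = E (wang w x i) *
      (2 * Real.pi * (wang w v i : ℂ) * I * G (low x) i +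
        fderiv ℝ G (low x) (low v) i) := by
  have hS := contDiff_wsweep w hG
  have h1 := hasDerivAt_line v ((hS.differentiable (by simp)).differentiableAt (x := x))
  have h1' := (hasDerivAt_pi.1 h1) i
  have h2 := hasDerivAt_line (low v) ((hG.differentiable (by simp)).differentiableAt (x := low x))
  have h2' := (hasDerivAt_pi.1 h2) i
  have h3 := (hasDerivAt_E (wang w x i) (wang w v i) 0).mul h2'
  have h4 : (fun t : ℝ => wsweep w G (x + t • v) i) =
      (fun s : ℝ => E (wang w x i + s * wang w v i)) *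
        fun t : ℝ => G (low x + t • low v) i := by
    funext t
    simp only [Pi.mul_apply]
    rw [wsweep_eq, wang_add_smul, low_add_smul]
  rw [h4] at h1'
  have h5 := h1'.unique h3
  rw [h5]
  simp only [zero_mul, add_zero, zero_smul]
  ring

lemma low_inl' (a : ρ) : low (Pi.single (Sum.inl a) 1 : ρ ⊕ σ → ℝ) = 0 := by
  funext j; unfold low; rw [Pi.single_apply, if_neg]; · rfl
  · simp

lemma low_inr' (j : σ) : low (Pi.single (Sum.inr j) 1 : ρ ⊕ σ → ℝ) = Pi.single j 1 := by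
  funext j'; unfold low; simp [Pi.single_apply]

lemma pd_wsweep_inl (w : ρ → ι → ℝ) {G : (σ → ℝ) → ι → ℂ}
    (hG : ContDiff ℝ ∞ G) (x : ρ ⊕ σ → ℝ) (a : ρ) (i : ι) :
    pd (wsweep w G) (Sum.inl a) x i =
      E (wang w x i) * (2 * Real.pi * I * w a i * G (low x) i) := by
  unfold pd
  rw [fderiv_wsweep w hG, wang_inl, low_inl', map_zero]
  simp only [Pi.zero_apply, add_zero]
  ring

lemma pd_wsweep_inr (w : ρ → ι → ℝ) {G : (σ → ℝ) → ι → ℂ}
    (hG : ContDiff ℝ ∞ G) (x : ρ ⊕ σ → ℝ) (j : σ) (i : ι) :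
    pd (wsweep w G) (Sum.inr j) x i = E (wang w x i) * pd G j (low x) i := by
  unfold pd
  rw [fderiv_wsweep w hG, wang_inr, low_inr']
  simp

/-- The frame of a swept torus at `x` is obtained from that at `up (low x)` by a rotation. -/
lemma frame_wsweep (b : ι → κ) (e : κ ⊕ (ρ ⊕ σ) ≃ ι) (w : ρ → ι → ℝ) {G : (σ → ℝ) → ι → ℂ}
    (hG : ContDiff ℝ ∞ G) (x : ρ ⊕ σ → ℝ) :
    frame b e (wsweep w G) x =
      Matrix.diagonal (fun i => E (wang w x i)) * frame b e (wsweep w G) (up (low x)) := by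
  ext i q
  rw [Matrix.diagonal_mul]
  simp only [frame, Matrix.of_apply]
  rcases h : e.symm q with k | a | j
  · simp only [Sum.elim_inl]
    by_cases hi : b i = k
    · simp only [if_pos hi, wsweep_eq, wang_up, E_zero, low_up]; ring
    · simp only [if_neg hi, mul_zero]
  · simp only [Sum.elim_inr]
    rw [pd_wsweep_inl w hG, pd_wsweep_inl w hG, wang_up, E_zero, low_up, one_mul]
  · simp only [Sum.elim_inr]
    rw [pd_wsweep_inr w hG, pd_wsweep_inr w hG, wang_up, E_zero, low_up, one_mul]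

lemma frameDet_wsweep (b : ι → κ) (e : κ ⊕ (ρ ⊕ σ) ≃ ι) (w : ρ → ι → ℝ)
    {G : (σ → ℝ) → ι → ℂ} (hG : ContDiff ℝ ∞ G) (x : ρ ⊕ σ → ℝ) :
    frameDet b e (wsweep w G) x =
      E (∑ i, wang w x i) * frameDet b e (wsweep w G) (up (low x)) := by
  unfold frameDet
  rw [frame_wsweep b e w hG, Matrix.det_mul, Matrix.det_diagonal, E_sum]

end Pool.Agent.Lib.MP_a9a507_gt
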