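import Pool.Agent.Lib.MP_a9a507_gt.BlockSlice

/-! # MP_a9a507: isotopies of the slice lift to isotopies of the block-symmetric torus -/

open scoped ContDiff
open Complex

set_option linter.unusedSectionVars false
set_option linter.unusedDecidableInType false

namespace Pool.Agent.Lib.MP_a9a507_gt

section Cocycle

variable {ι κ τ : Type} [Fintype ι] [DecidableEq ι] [Fintype κ] [DecidableEq κ]
  [Fintype τ] [DecidableEq τ]

/-- The Hermitian products of `H t (x+m)` and `H t x` over a block do not depend on `t`. -/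
lemma cocycle_const (b : ι → κ) {r : κ → ℝ} {e : κ ⊕ τ ≃ ι} {H : ℝ → (τ → ℝ) → ι → ℂ}
    (hH : IsHamIsotopy b r e H) (x : τ → ℝ) (m : τ → ℤ) (k : κ) (t : ℝ) :
    hermB b k (H t x) (H t (shift x m)) = hermB b k (H 0 x) (H 0 (shift x m)) := by
  have hd : ∀ t, HasDerivAt (fun s => hermB b k (H s x) (H s (shift x m))) 0 t := by
    intro t
    have h1 := hasDerivAt_time hH.smooth x t
    have h2 := hasDerivAt_time hH.smooth (shift x m) t
    have h3 : HasDerivAt (fun s => hermB b k (H s x) (H s (shift x m)))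
        (hermB b k (deriv (fun s => H s x) t) (H t (shift x m)) +
          hermB b k (H t x) (deriv (fun s => H s (shift x m)) t)) t := by
      unfold hermB
      rw [← Finset.sum_add_distrib]
      refine HasDerivAt.fun_sum fun i _ => ?_
      by_cases h : b i = k
      · simp only [if_pos h]
        have h1' := (hasDerivAt_pi.1 h1) i
        have h2' := (hasDerivAt_pi.1 h2) i
        have h4 : HasDerivAt (fun s => (starRingEnd ℂ) (H s x i))
            ((starRingEnd ℂ) (deriv (fun s => H s x) t i)) t := h1'.star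
        exact h4.mul h2'
      · simp only [if_neg h, add_zero]
        exact hasDerivAt_const _ _
    obtain ⟨u, hu, hper⟩ := (hH.torus t).periodic x m
    have h5 : hermB b k (deriv (fun s => H s x) t) (H t (shift x m)) = 0 := by
      have h6 : hermB b k (deriv (fun s => H s x) t) (H t (shift x m)) =
          u k * hermB b k (deriv (fun s => H s x) t) (H t x) := by
        unfold hermB
        rw [Finset.mul_sum]
        refine Finset.sum_congr rfl fun i _ => ?_
        by_cases h : b i = k
        · simp only [if_pos h]; rw [hper i, h]; ring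
        · simp only [if_neg h, mul_zero]
      rw [h6, ← hermB_conj, hH.horizontal, map_zero, mul_zero]
    have h7 : hermB b k (H t x) (deriv (fun s => H s (shift x m)) t) = 0 := by
      have h8 : hermB b k (H t x) (deriv (fun s => H s (shift x m)) t) =
          u k * hermB b k (H t (shift x m)) (deriv (fun s => H s (shift x m)) t) := by
        unfold hermB
        rw [Finset.mul_sum]
        refine Finset.sum_congr rfl fun i _ => ?_
        by_cases h : b i = k
        · simp only [if_pos h]
          rw [hper i, map_mul, h]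
          have := conj_mul_self_of_norm (hu k)
          linear_combination (-(starRingEnd ℂ) (H t x i) *
            deriv (fun s => H s (shift x m)) t i) * this
        · simp only [if_neg h, mul_zero]
      rw [h8, hH.horizontal, mul_zero]
    rw [h5, h7, add_zero] at h3
    exact h3
  exact is_const_of_deriv_eq_zero (fun t => (hd t).differentiableAt)
    (fun t => (hd t).deriv) t 0

end Cocycle

variable {ι κ κ' : Type} [Fintype ι] [DecidableEq ι] [Fintype κ] [DecidableEq κ]
  [Fintype κ'] [DecidableEq κ']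
variable {ρ σ : Type} [Fintype ρ] [DecidableEq ρ] [Fintype σ] [DecidableEq σ]

/-- The phases stay common to the fine blocks of a coarse block along the isotopy. -/
theorem common_isotopy (b : ι → κ') (c : κ' → κ) {r : κ' → ℝ} (hr : ∀ l, 0 < r l)
    {e : κ' ⊕ σ ≃ ι} {H : ℝ → (σ → ℝ) → ι → ℂ} (hH : IsHamIsotopy b r e H)
    (x : σ → ℝ) (m : σ → ℤ) (h0 : SamePoint (c ∘ b) (H 0 (shift x m)) (H 0 x)) (t : ℝ) :
    SamePoint (c ∘ b) (H t (shift x m)) (H t x) := by
  obtain ⟨u, hu, h0⟩ := h0
  obtain ⟨u', hu', ht⟩ := (hH.torus t).periodic x m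
  refine ⟨u, hu, fun i => ?_⟩
  rw [ht i]
  have h1 := cocycle_const b hH x m (b i) t
  have h2 : hermB b (b i) (H t x) (H t (shift x m)) = u' (b i) * (r (b i) : ℂ) := by
    rw [← (hH.torus t).level x (b i), ← hermB_self]
    unfold hermB
    rw [Finset.mul_sum]
    refine Finset.sum_congr rfl fun i' _ => ?_
    by_cases h : b i' = b i
    · simp only [if_pos h]; rw [ht i', h]; ring
    · simp only [if_neg h, mul_zero]
  have h3 : hermB b (b i) (H 0 x) (H 0 (shift x m)) = u (c (b i)) * (r (b i) : ℂ) := by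
    rw [← (hH.torus 0).level x (b i), ← hermB_self]
    unfold hermB
    rw [Finset.mul_sum]
    refine Finset.sum_congr rfl fun i' _ => ?_
    by_cases h : b i' = b i
    · simp only [if_pos h]; rw [h0 i']; simp only [Function.comp_apply, h]; ring
    · simp only [if_neg h, mul_zero]
  rw [h2, h3] at h1
  have h4 : (r (b i) : ℂ) ≠ 0 := by exact_mod_cast (hr (b i)).ne'
  have h5 := mul_right_cancel₀ h4 h1
  rw [h5]; rfl

/-- The product of a vector with the derivative in a direction of rotation. -/
lemma herm_rotdir (b : ι → κ') (w : ρ → κ' → ℝ) {G : (σ → ℝ) → ι → ℂ}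
    (hG : ContDiff ℝ ∞ G) (x : ρ ⊕ σ → ℝ) (a : ρ) (z : ι → ℂ) :
    herm (fun i => E (wang w x (b i)) * z i) (pd (wsweep (blockWt b w) G) (Sum.inl a) x) =
      ∑ l, (2 * Real.pi * w a l : ℝ) * (I * hermB b l z (G (low x))) := by
  have h1 : pd (wsweep (blockWt b w) G) (Sum.inl a) x = fun i => E (wang w x (b i)) *
      (2 * Real.pi * I * w a (b i) * G (low x) i) := by
    funext i; rw [pd_wsweep_inl _ hG]; rfl
  rw [h1, herm_rot, herm_eq_sum b]
  refine Finset.sum_congr rfl fun l _ => ?_
  unfold hermB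
  rw [Finset.mul_sum, Finset.mul_sum]
  refine Finset.sum_congr rfl fun i _ => ?_
  by_cases h : b i = l
  · simp only [if_pos h, h]; push_cast; ring
  · simp only [if_neg h, mul_zero]

lemma herm_slicedir (b : ι → κ') (w : ρ → κ' → ℝ) {G : (σ → ℝ) → ι → ℂ}
    (hG : ContDiff ℝ ∞ G) (x : ρ ⊕ σ → ℝ) (j : σ) (z : ι → ℂ) :
    herm (fun i => E (wang w x (b i)) * z i) (pd (wsweep (blockWt b w) G) (Sum.inr j) x) =
      herm z (pd G j (low x)) := by
  have h1 : pd (wsweep (blockWt b w) G) (Sum.inr j) x = fun i => E (wang w x (b i)) *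
      pd G j (low x) i := by
    funext i; rw [pd_wsweep_inr _ hG]; rfl
  rw [h1, herm_rot]

/-- A swept family over a Lagrangian torus of the fine product is a Lagrangian torus. -/
theorem isLagrangianTorus_block (b : ι → κ') (c : κ' → κ) (w : ρ → κ' → ℝ)
    (e' : κ' ⊕ σ ≃ ι) (e : κ ⊕ (ρ ⊕ σ) ≃ ι) {r : κ' → ℝ}
    (hr : ∀ l, 0 < r l) (hdet : (chg c w e' e).det ≠ 0)
    (hL1 : ∀ m : ρ → ℤ, ∃ u : κ → ℂ, (∀ k, ‖u k‖ = 1) ∧
      ∀ l, E (∑ a, w a l * (m a : ℝ)) = u (c l))
    (hL2 : ∀ β : ρ → ℝ, (∃ u : κ → ℂ, (∀ k, ‖u k‖ = 1) ∧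
      ∀ l, E (∑ a, w a l * β a) = u (c l)) → ∃ m : ρ → ℤ, ∀ a, β a = (m a : ℝ))
    {G : (σ → ℝ) → ι → ℂ} (hG : IsLagrangianTorus b r e' G)
    (hcom : ∀ y m, SamePoint (c ∘ b) (G (shift y m)) (G y)) :
    IsLagrangianTorus (c ∘ b) (fun k => ∑ l, if c l = k then r l else 0) e
      (wsweep (blockWt b w) G) := by
  refine ⟨contDiff_wsweep _ hG.smooth, ?_, ?_, ?_, ?_, ?_⟩
  · intro x k
    have h0 : wsweep (blockWt b w) G x = fun i => E (wang w x (b i)) * G (low x) i := rfl
    rw [h0, normB_rot, normB_coarse]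
    exact Finset.sum_congr rfl fun l _ => by rw [hG.level]
  · intro x m
    obtain ⟨u, hu, h⟩ := hcom (low x) (fun j => m (Sum.inr j))
    obtain ⟨u₁, hu₁, h1⟩ := hL1 fun a => m (Sum.inl a)
    refine ⟨fun k => u₁ k * u k, fun k => by rw [norm_mul, hu, hu₁, one_mul], fun i => ?_⟩
    rw [wsweep_eq, wsweep_eq, wang_block, wang_block]
    have h2 : wang w (shift x m) (b i) = wang w x (b i) + ∑ a, w a (b i) * (m (Sum.inl a) : ℝ) := by
      unfold wang shift
      rw [← Finset.sum_add_distrib]
      exact Finset.sum_congr rfl fun a _ => by ring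
    have h3 : low (shift x m) = shift (low x) (fun j => m (Sum.inr j)) := rfl
    rw [h2, E_add, h1, h3, h i]
    simp only [Function.comp_apply]
    ring
  · intro x x' h
    obtain ⟨u, hu, h⟩ := h
    simp only [wsweep_eq, wang_block, Function.comp_apply] at h
    have h1 : SamePoint b (G (low x')) (G (low x)) := by
      refine ⟨fun l => (starRingEnd ℂ) (E (wang w x' l)) * u (c l) * E (wang w x l),
        fun l => by simp [norm_E, hu], fun i => ?_⟩
      have h2 := conj_E_mul (wang w x' (b i))
      linear_combination ((starRingEnd ℂ) (E (wang w x' (b i)))) * h i -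
        (G (low x') i) * h2
    obtain ⟨m, hm⟩ := hG.embedded _ _ h1
    obtain ⟨u₁, hu₁, h3⟩ := hcom (low x) m
    rw [hm] at h
    have h4 : ∀ l, E (wang w x' l) * u₁ (c l) = u (c l) * E (wang w x l) := by
      intro l
      obtain ⟨i, hi, hne⟩ := exists_ne b l (G (low x)) (by rw [hG.level]; exact hr l)
      have h5 := h i
      rw [h3 i] at h5
      simp only [Function.comp_apply, hi] at h5
      apply mul_right_cancel₀ hne
      linear_combination h5
    obtain ⟨n, hn⟩ := hL2 (fun a => x' (Sum.inl a) - x (Sum.inl a))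
      ⟨fun k => u k * (starRingEnd ℂ) (u₁ k), fun k => by simp [hu, hu₁], fun l => by
        have h6 : wang w x' l = (∑ a, w a l * (x' (Sum.inl a) - x (Sum.inl a))) + wang w x l := by
          unfold wang
          rw [← Finset.sum_add_distrib]
          exact Finset.sum_congr rfl fun a _ => by ring
        have h7 := h4 l
        rw [h6, E_add] at h7
        have h8 := conj_mul_self_of_norm (hu₁ (c l))
        have h9 := E_ne (wang w x l)
        apply mul_right_cancel₀ h9
        linear_combination ((starRingEnd ℂ) (u₁ (c l))) * h7 -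
          (E (∑ a, w a l * (x' (Sum.inl a) - x (Sum.inl a))) * E (wang w x l)) * h8⟩
    refine ⟨Sum.elim n m, ?_⟩
    funext a
    rcases a with a | j
    · have := hn a
      simp only [shift, Sum.elim_inl]
      linarith
    · exact congrFun hm j
  · intro x
    rw [frameDet_block b c w e' e hG.smooth]
    exact mul_ne_zero (E_ne _) (mul_ne_zero (hG.immersed _) hdet)
  · have him : ∀ (s : ℝ) (z : ℂ), z.re = 0 → ((s : ℂ) * (I * z)).im = 0 := by
      intro s z hz
      rw [Complex.im_ofReal_mul, Complex.I_mul_im, hz, mul_zero]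
    have hin : ∀ (x : ρ ⊕ σ → ℝ) (a : ρ) (d : ρ ⊕ σ),
        (herm (pd (wsweep (blockWt b w) G) d x)
          (pd (wsweep (blockWt b w) G) (Sum.inl a) x)).im = 0 := by
      intro x a d
      rcases d with a' | j
      · have h1 : pd (wsweep (blockWt b w) G) (Sum.inl a') x = fun i => E (wang w x (b i)) *
            (2 * Real.pi * I * w a' (b i) * G (low x) i) := by
          funext i; rw [pd_wsweep_inl _ hG.smooth]; rfl
        rw [h1, herm_rotdir b w hG.smooth, Complex.im_sum]
        refine Finset.sum_eq_zero fun l _ => him _ _ ?_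
        have h2 : hermB b l (fun i => 2 * Real.pi * I * w a' (b i) * G (low x) i) (G (low x)) =
            ((-(2 * Real.pi * w a' l * normB b l (G (low x))) : ℝ) : ℂ) * I := by
          have h3 : hermB b l (fun i => 2 * Real.pi * I * w a' (b i) * G (low x) i) (G (low x)) =
              -(2 * Real.pi * I * w a' l) * hermB b l (G (low x)) (G (low x)) := by
            unfold hermB
            rw [Finset.mul_sum]
            refine Finset.sum_congr rfl fun i _ => ?_
            by_cases hi : b i = l
            · rw [if_pos hi, if_pos hi]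
              beta_reduce
              rw [hi]
              simp only [map_mul, Complex.conj_I, Complex.conj_ofReal, Complex.conj_ofNat]
              ring
            · simp only [if_neg hi, mul_zero]
          rw [h3, hermB_self]
          push_cast
          ring
        rw [h2]
        simp
      · have h1 : pd (wsweep (blockWt b w) G) (Sum.inr j) x = fun i => E (wang w x (b i)) *
            pd G j (low x) i := by
          funext i; rw [pd_wsweep_inr _ hG.smooth]; rfl
        rw [h1, herm_rotdir b w hG.smooth, Complex.im_sum]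
        refine Finset.sum_eq_zero fun l _ => him _ _ ?_
        have h2 := re_hermB_pd b hG.smooth hG.level l j (low x)
        rw [← hermB_conj, Complex.conj_re] at h2
        exact h2
    have hsymm : ∀ z w : ι → ℂ, (herm z w).im = -(herm w z).im := by
      intro z w
      have h1 : herm z w = (starRingEnd ℂ) (herm w z) := by
        unfold herm
        rw [map_sum]
        exact Finset.sum_congr rfl fun i _ => by rw [map_mul, Complex.conj_conj, mul_comm]
      rw [h1, Complex.conj_im]
    intro x d d'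
    rcases d' with a | j'
    · exact hin x a d
    · rcases d with a | j
      · rw [hsymm, hin x a, neg_zero]
      · have h1 : pd (wsweep (blockWt b w) G) (Sum.inr j) x = fun i => E (wang w x (b i)) *
            pd G j (low x) i := by
          funext i; rw [pd_wsweep_inr _ hG.smooth]; rfl
        rw [h1, herm_slicedir b w hG.smooth]
        exact hG.lagrangian _ _ _

/-- An isotopy of the slice lifts to an isotopy of the swept torus. -/
theorem isHamIsotopy_block (b : ι → κ') (c : κ' → κ) (w : ρ → κ' → ℝ)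
    (e' : κ' ⊕ σ ≃ ι) (e : κ ⊕ (ρ ⊕ σ) ≃ ι) {r : κ' → ℝ}
    (hr : ∀ l, 0 < r l) (hdet : (chg c w e' e).det ≠ 0)
    (hL1 : ∀ m : ρ → ℤ, ∃ u : κ → ℂ, (∀ k, ‖u k‖ = 1) ∧
      ∀ l, E (∑ a, w a l * (m a : ℝ)) = u (c l))
    (hL2 : ∀ β : ρ → ℝ, (∃ u : κ → ℂ, (∀ k, ‖u k‖ = 1) ∧
      ∀ l, E (∑ a, w a l * β a) = u (c l)) → ∃ m : ρ → ℤ, ∀ a, β a = (m a : ℝ))
    {H : ℝ → (σ → ℝ) → ι → ℂ} (hH : IsHamIsotopy b r e' H)
    (hcom : ∀ y m, SamePoint (c ∘ b) (H 0 (shift y m)) (H 0 y)) :
    IsHamIsotopy (c ∘ b) (fun k => ∑ l, if c l = k then r l else 0) e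
      (fun t => wsweep (blockWt b w) (H t)) := by
  have htime : ∀ t (x : ρ ⊕ σ → ℝ), deriv (fun s => wsweep (blockWt b w) (H s) x) t =
      fun i => E (wang w x (b i)) * deriv (fun s => H s (low x)) t i := by
    intro t x
    apply HasDerivAt.deriv
    refine hasDerivAt_pi.2 fun i => ?_
    exact ((hasDerivAt_pi.1 (hasDerivAt_time hH.smooth (low x) t)) i).const_mul _
  refine ⟨?_, fun t => ?_, ?_, ?_⟩
  · refine contDiff_pi.2 fun i => ?_
    have h1 : ContDiff ℝ ∞ (fun p : ℝ × (ρ ⊕ σ → ℝ) => E (wang (blockWt b w) p.2 i)) :=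
      contDiff_E.comp ((contDiff_wang (blockWt b w) i).comp contDiff_snd)
    have h2 : ContDiff ℝ ∞ (fun p : ℝ × (ρ ⊕ σ → ℝ) => H p.1 (low p.2)) :=
      hH.smooth.comp (contDiff_fst.prodMk (contDiff_low.comp contDiff_snd))
    exact h1.mul (contDiff_pi.1 h2 i)
  · exact isLagrangianTorus_block b c w e' e hr hdet hL1 hL2 (hH.torus t)
      fun y m => common_isotopy b c hr hH y m (hcom y m) t
  · intro t x k
    have h0 : wsweep (blockWt b w) (H t) x = fun i => E (wang w x (b i)) * H t (low x) i := rfl
    rw [htime, h0, hermB_rot, hermB_coarse]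
    refine Finset.sum_eq_zero fun l _ => ?_
    rw [hH.horizontal]; simp
  · obtain ⟨h, hh, hper, hdh⟩ := hH.exact
    refine ⟨fun t x => h t (low x), ?_, fun t x m => ?_, fun t x d => ?_⟩
    · exact hh.comp (contDiff_fst.prodMk (contDiff_low.comp contDiff_snd))
    · have h1 : low (shift x m) = shift (low x) (fun j => m (Sum.inr j)) := rfl
      show h t (low (shift x m)) = h t (low x)
      rw [h1, hper]
    · have hht : ContDiff ℝ ∞ (h t) := hh.comp (contDiff_prodMk_right t)
      have h1 := hasDerivAt_line (Pi.single d 1)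
        (((hht.comp contDiff_low).differentiable (by simp)).differentiableAt (x := x))
      have h2 := hasDerivAt_line (low (Pi.single d 1 : ρ ⊕ σ → ℝ))
        ((hht.differentiable (by simp)).differentiableAt (x := low x))
      have h3 := h1.unique h2
      have h4 : fderiv ℝ (fun x : ρ ⊕ σ → ℝ => h t (low x)) x (Pi.single d 1) =
          fderiv ℝ (h t ∘ low) x (Pi.single d 1) := rfl
      rw [h4, h3, htime]
      rcases d with a | j
      · rw [low_inl', map_zero, herm_rotdir b w (contDiff_slice hH.smooth t)]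
        rw [Finset.sum_eq_zero]
        · simp
        · intro l _
          rw [← hermB_conj, hH.horizontal]; simp
      · rw [low_inr', hdh, herm_slicedir b w (contDiff_slice hH.smooth t)]

lemma misses_block (b : ι → κ') (c : κ' → κ) (w : ρ → κ' → ℝ) {G : (σ → ℝ) → ι → ℂ} {l : κ'}
    (h : MissesHyperplane b l G) : MissesHyperplane (c ∘ b) (c l) (wsweep (blockWt b w) G) := by
  obtain ⟨a, ha⟩ := h
  refine ⟨fun i => if b i = l then a i else 0, fun x => ?_⟩
  have h1 : (∑ i, if (c ∘ b) i = c l then (if b i = l then a i else 0) *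
      wsweep (blockWt b w) G x i else 0) =
      E (wang w x l) * ∑ i, if b i = l then a i * G (low x) i else 0 := by
    rw [Finset.mul_sum]
    refine Finset.sum_congr rfl fun i _ => ?_
    by_cases hi : b i = l
    · simp only [Function.comp_apply, hi, if_true, wsweep_eq, wang_block]; ring
    · simp only [if_neg hi, zero_mul, ite_self, mul_zero]
  rw [h1]
  exact mul_ne_zero (E_ne _) (ha _)

/-- **Transfer of locality**: an isotopy of the slice in the fine product which pushes one fine
block in every coarse block off a hyperplane makes the swept torus local. -/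
theorem isLocal_block (b : ι → κ') (c : κ' → κ) (w : ρ → κ' → ℝ) (hb : Function.Surjective b)
    (e' : κ' ⊕ σ ≃ ι) (e : κ ⊕ (ρ ⊕ σ) ≃ ι) (τ₀ : ℝ)
    {G : (σ → ℝ) → ι → ℂ} (hF : IsMonotoneTorus (c ∘ b) τ₀ e (wsweep (blockWt b w) G))
    (H : ℝ → (σ → ℝ) → ι → ℂ) (hH : IsHamIsotopy b (fun l => τ₀ * size b l) e' H)
    (h0 : H 0 = G) (hm : ∀ k, ∃ l, c l = k ∧ MissesHyperplane b l (H 1)) :
    IsLocal (c ∘ b) (fun k => τ₀ * size (c ∘ b) k) e (wsweep (blockWt b w) G) := by
  have hG : ContDiff ℝ ∞ G := contDiff_of_wsweep _ G hF.torus.smooth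
  have hr : ∀ l, 0 < τ₀ * (size b l : ℝ) := fun l =>
    mul_pos hF.pos (by exact_mod_cast size_pos b hb l)
  have hlev := fun y l => level_slice b c w e' e τ₀ hF y l
  have hdet : (chg c w e' e).det ≠ 0 := by
    intro h
    apply hF.torus.immersed (up 0)
    rw [frameDet_block b c w e' e hG, h]
    simp
  have hne : ∀ l, ∃ i, b i = l ∧ G 0 i ≠ 0 := fun l =>
    exists_ne b l (G 0) (by rw [hlev]; exact hr l)
  have hL1 : ∀ m : ρ → ℤ, ∃ u : κ → ℂ, (∀ k, ‖u k‖ = 1) ∧
      ∀ l, E (∑ a, w a l * (m a : ℝ)) = u (c l) := by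
    intro m
    obtain ⟨u, hu, h⟩ := hF.torus.periodic (up 0) (Sum.elim m (fun _ => 0))
    refine ⟨u, hu, fun l => ?_⟩
    obtain ⟨i, hi, hne⟩ := hne l
    have h1 := h i
    have h2 : (shift (up (0 : σ → ℝ)) (Sum.elim m (fun _ => 0)) : ρ ⊕ σ → ℝ) =
        Sum.elim (fun a => (m a : ℝ)) 0 := by
      funext a
      rcases a with a | a <;> simp [shift, up]
    rw [h2, wsweep_up, wsweep_eq, wang_block, hi] at h1
    have h3 : low (Sum.elim (fun a => (m a : ℝ)) 0 : ρ ⊕ σ → ℝ) = 0 := rfl
    rw [h3] at h1
    have h4 := mul_right_cancel₀ hne h1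
    simp only [Function.comp_apply, hi] at h4
    exact h4
  have hL2 : ∀ β : ρ → ℝ, (∃ u : κ → ℂ, (∀ k, ‖u k‖ = 1) ∧
      ∀ l, E (∑ a, w a l * β a) = u (c l)) → ∃ m : ρ → ℤ, ∀ a, β a = (m a : ℝ) := by
    rintro β ⟨u, hu, h⟩
    have h1 : SamePoint (c ∘ b) (wsweep (blockWt b w) G (Sum.elim β 0))
        (wsweep (blockWt b w) G (up 0)) := by
      refine ⟨u, hu, fun i => ?_⟩
      rw [wsweep_up, wsweep_eq, wang_block]
      have h2 : wang w (Sum.elim β 0 : ρ ⊕ σ → ℝ) (b i) = ∑ a, w a (b i) * β a := rfl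
      rw [h2, h]
      rfl
    obtain ⟨m, hm⟩ := hF.torus.embedded _ _ h1
    refine ⟨fun a => m (Sum.inl a), fun a => ?_⟩
    have := congrFun hm (Sum.inl a)
    simpa [shift, up] using this
  have h1 := isHamIsotopy_block b c w e' e hr hdet hL1 hL2 hH
    (by rw [h0]; exact fun y m => common_slice b c w e hF.torus y m)
  have h2 : (fun k => ∑ l, if c l = k then τ₀ * (size b l : ℝ) else 0) =
      fun k => τ₀ * (size (c ∘ b) k : ℝ) := by
    funext k
    rw [size_coarse, Finset.mul_sum]
    exact Finset.sum_congr rfl fun l _ => by split_ifs <;> simp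
  rw [h2] at h1
  refine ⟨_, h1, by simp only [h0], fun k => ?_⟩
  obtain ⟨l, hl, hml⟩ := hm k
  have h3 := misses_block b c w hml
  rw [hl] at h3
  exact h3

end Pool.Agent.Lib.MP_a9a507_gt
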