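import Pool.Agent.Lib.MP_a9a507_gt.Criterion

/-! # MP_a9a507: tori swept out by all rotations of blocks; the slice

`b : ι → κ'` are the fine blocks, `c : κ' → κ` groups them to the coarse blocks, which give the
factors of the ambient space; the weights `w a` are constant on the fine blocks.
-/

open scoped ContDiff
open Complex

set_option linter.unusedSectionVars false
set_option linter.unusedDecidableInType false

namespace Pool.Agent.Lib.MP_a9a507_gt

variable {ι κ κ' : Type} [Fintype ι] [DecidableEq ι] [Fintype κ] [DecidableEq κ]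
  [Fintype κ'] [DecidableEq κ']
variable {ρ σ : Type} [Fintype ρ] [DecidableEq ρ] [Fintype σ] [DecidableEq σ]

/-- Weights which are constant on the fine blocks. -/
def blockWt (b : ι → κ') (w : ρ → κ' → ℝ) : ρ → ι → ℝ := fun a i => w a (b i)

lemma wang_block (b : ι → κ') (w : ρ → κ' → ℝ) (x : ρ ⊕ σ → ℝ) (i : ι) :
    wang (blockWt b w) x i = wang w x (b i) := rfl

/-- The constant matrix which expresses the frame of a swept torus by that of the slice. -/
noncomputable def chg (c : κ' → κ) (w : ρ → κ' → ℝ) (e' : κ' ⊕ σ ≃ ι)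
    (e : κ ⊕ (ρ ⊕ σ) ≃ ι) : Matrix ι ι ℂ :=
  Matrix.of fun p q =>
    Sum.elim
      (fun l => Sum.elim (fun k => if c l = k then (1 : ℂ) else 0)
        (Sum.elim (fun a => (2 * Real.pi * w a l : ℂ)) fun _ => 0) (e.symm q))
      (fun j => Sum.elim (fun _ => (0 : ℂ))
        (Sum.elim (fun _ => 0) fun j' => if j = j' then (1 : ℂ) else 0) (e.symm q))
      (e'.symm p)

lemma frame_block (b : ι → κ') (c : κ' → κ) (w : ρ → κ' → ℝ) (e' : κ' ⊕ σ ≃ ι)
    (e : κ ⊕ (ρ ⊕ σ) ≃ ι) {G : (σ → ℝ) → ι → ℂ} (hG : ContDiff ℝ ∞ G) (x : ρ ⊕ σ → ℝ) :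
    frame (c ∘ b) e (wsweep (blockWt b w) G) x =
      Matrix.diagonal (fun i => E (wang w x (b i))) *
        (frame b e' G (low x) * chg c w e' e) := by
  ext i q
  rw [Matrix.diagonal_mul, Matrix.mul_apply, ← Equiv.sum_comp e', Fintype.sum_sum_type]
  simp only [frame, chg, Matrix.of_apply, Equiv.symm_apply_apply, Sum.elim_inl, Sum.elim_inr]
  rcases h : e.symm q with k | a | j
  · simp only [Sum.elim_inl, mul_zero, Finset.sum_const_zero, add_zero, Function.comp_apply,
      wsweep_eq, wang_block]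
    rw [Finset.sum_eq_single (b i)]
    · rw [if_pos rfl]
      split_ifs <;> ring
    · intro l _ hl
      rw [if_neg (Ne.symm hl), zero_mul]
    · simp
  · simp only [Sum.elim_inl, Sum.elim_inr, mul_zero, Finset.sum_const_zero, add_zero]
    rw [pd_wsweep_inl _ hG, wang_block]
    congr 1
    rw [Finset.sum_eq_single (b i)]
    · rw [if_pos rfl]
      simp only [blockWt]
      ring
    · intro l' _ hl
      rw [if_neg (Ne.symm hl), zero_mul]
    · simp
  · simp only [Sum.elim_inr, mul_zero, Finset.sum_const_zero, zero_add]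
    rw [pd_wsweep_inr _ hG, wang_block]
    congr 1
    rw [Finset.sum_eq_single j]
    · rw [if_pos rfl, mul_one]
    · intro j' _ hj
      rw [if_neg hj, mul_zero]
    · simp

lemma frameDet_block (b : ι → κ') (c : κ' → κ) (w : ρ → κ' → ℝ) (e' : κ' ⊕ σ ≃ ι)
    (e : κ ⊕ (ρ ⊕ σ) ≃ ι) {G : (σ → ℝ) → ι → ℂ} (hG : ContDiff ℝ ∞ G) (x : ρ ⊕ σ → ℝ) :
    frameDet (c ∘ b) e (wsweep (blockWt b w) G) x =
      E (∑ i, wang w x (b i)) * (frameDet b e' G (low x) * (chg c w e' e).det) := by
  unfold frameDet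
  rw [frame_block b c w e' e hG, Matrix.det_mul, Matrix.det_mul, Matrix.det_diagonal, E_sum]

/-- The characters of the blocks span everything. -/
lemma bchar_surj (b : ι → κ') (c : κ' → κ) (w : ρ → κ' → ℝ) (e' : κ' ⊕ σ ≃ ι)
    (e : κ ⊕ (ρ ⊕ σ) ≃ ι) {G : (σ → ℝ) → ι → ℂ} (hG : ContDiff ℝ ∞ G)
    (hdet : frameDet (c ∘ b) e (wsweep (blockWt b w) G) (up 0) ≠ 0) (v : κ' → ℝ) :
    ∃ (α : κ → ℝ) (β : ρ → ℝ), ∀ l, α (c l) + ∑ a, β a * w a l = v l := by
  set L : (κ ⊕ ρ → ℝ) →ₗ[ℝ] (κ' → ℝ) :=
    { toFun := fun u l => u (Sum.inl (c l)) + ∑ a, u (Sum.inr a) * w a l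
      map_add' := by
        intro u u'
        funext l
        simp only [Pi.add_apply, add_mul, Finset.sum_add_distrib]
        ring
      map_smul' := by
        intro t u
        funext l
        simp only [Pi.smul_apply, smul_eq_mul, RingHom.id_apply, mul_add, Finset.mul_sum]
        congr 1
        exact Finset.sum_congr rfl fun a _ => by ring } with hL
  have hinj : Function.Injective L := by
    rw [injective_iff_map_eq_zero]
    intro u hu
    obtain ⟨h1, h2⟩ := rot_ne (c ∘ b) e (blockWt b w) hG 0 hdet (fun k => u (Sum.inl k))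
      (fun a => u (Sum.inr a)) (fun i => by
        have h3 := congrFun hu (b i)
        have h4 : wt (c ∘ b) (blockWt b w) (fun k => u (Sum.inl k)) (fun a => u (Sum.inr a)) i =
            L u (b i) := rfl
        rw [h4, h3]
        simp)
    funext r
    rcases r with k | a
    · exact congrFun h1 k
    · exact congrFun h2 a
  have hfin : Module.finrank ℝ (κ ⊕ ρ → ℝ) = Module.finrank ℝ (κ' → ℝ) := by
    have h1 : Fintype.card (κ' ⊕ σ) = Fintype.card (κ ⊕ (ρ ⊕ σ)) :=
      (Fintype.card_congr e').trans (Fintype.card_congr e).symm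
    simp only [Fintype.card_sum, Module.finrank_fintype_fun_eq_card] at h1 ⊢
    omega
  obtain ⟨u, hu⟩ := ((LinearMap.injective_iff_surjective_of_finrank_eq_finrank hfin).1 hinj) v
  exact ⟨fun k => u (Sum.inl k), fun a => u (Sum.inr a), fun l => congrFun hu l⟩

/-- The slice of a swept monotone torus lies on the central level. -/
theorem level_slice (b : ι → κ') (c : κ' → κ) (w : ρ → κ' → ℝ)
    (e' : κ' ⊕ σ ≃ ι) (e : κ ⊕ (ρ ⊕ σ) ≃ ι) (τ₀ : ℝ) {G : (σ → ℝ) → ι → ℂ}
    (hF : IsMonotoneTorus (c ∘ b) τ₀ e (wsweep (blockWt b w) G)) (y : σ → ℝ) (l : κ') :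
    normB b l (G y) = τ₀ * size b l := by
  have hG : ContDiff ℝ ∞ G := contDiff_of_wsweep _ G hF.torus.smooth
  obtain ⟨α, β, h⟩ := bchar_surj b c w e' e hG (hF.torus.immersed _)
    (fun l' => if l' = l then 1 else 0)
  have h1 := moment (c ∘ b) e τ₀ (blockWt b w) hF y α β
  have h2 : ∀ j, wt (c ∘ b) (blockWt b w) α β j = if b j = l then 1 else 0 := fun j => h (b j)
  simp only [h2, ite_mul, one_mul, zero_mul] at h1
  unfold normB size
  rw [h1, Finset.card_filter]
  push_cast
  rw [Finset.mul_sum]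
  exact Finset.sum_congr rfl fun j _ => by split_ifs <;> simp

lemma shift_up {R : Type} (y : σ → ℝ) (m : σ → ℤ) :
    (shift (up y) (Sum.elim (fun _ => 0) m) : R ⊕ σ → ℝ) = up (shift y m) := by
  funext a
  rcases a with a | a <;> simp [shift, up]

/-- The phases of the slice are common to the fine blocks of a coarse block. -/
theorem common_slice (b : ι → κ') (c : κ' → κ) (w : ρ → κ' → ℝ)
    (e : κ ⊕ (ρ ⊕ σ) ≃ ι) {r : κ → ℝ} {G : (σ → ℝ) → ι → ℂ}
    (hF : IsLagrangianTorus (c ∘ b) r e (wsweep (blockWt b w) G)) (y : σ → ℝ) (m : σ → ℤ) :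
    SamePoint (c ∘ b) (G (shift y m)) (G y) := by
  have h := hF.periodic (up y) (Sum.elim (fun _ => 0) m)
  rw [shift_up, wsweep_up, wsweep_up] at h
  exact h

/-- The slice is embedded in the product of the fine blocks. -/
theorem embedded_slice (b : ι → κ') (c : κ' → κ) (w : ρ → κ' → ℝ) (e' : κ' ⊕ σ ≃ ι)
    (e : κ ⊕ (ρ ⊕ σ) ≃ ι) {r : κ → ℝ} {G : (σ → ℝ) → ι → ℂ}
    (hF : IsLagrangianTorus (c ∘ b) r e (wsweep (blockWt b w) G)) (y y' : σ → ℝ)
    (h : SamePoint b (G y') (G y)) : ∃ m : σ → ℤ, y' = shift y m := by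
  have hG : ContDiff ℝ ∞ G := contDiff_of_wsweep _ G hF.smooth
  obtain ⟨u', hu', h⟩ := h
  choose θ hθ using fun l => exists_E (hu' l)
  obtain ⟨α, β, hαβ⟩ := bchar_surj b c w e' e hG (hF.immersed _) θ
  have h5 : SamePoint (c ∘ b) (wsweep (blockWt b w) G (up y'))
      (wsweep (blockWt b w) G (Sum.elim β y)) := by
    refine ⟨fun k => E (α k), fun k => norm_E _, fun i => ?_⟩
    rw [wsweep_up, h i, wsweep_eq, ← hθ, ← hαβ (b i), E_add]
    have h6 : wang (blockWt b w) (Sum.elim β y : ρ ⊕ σ → ℝ) i = ∑ a, β a * w a (b i) := by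
      unfold wang blockWt
      exact Finset.sum_congr rfl fun a _ => mul_comm _ _
    rw [h6]
    have h7 : low (Sum.elim β y : ρ ⊕ σ → ℝ) = y := rfl
    rw [h7]
    simp only [Function.comp_apply]
    ring
  obtain ⟨m, hm⟩ := hF.embedded _ _ h5
  refine ⟨fun j => m (Sum.inr j), ?_⟩
  funext j
  have := congrFun hm (Sum.inr j)
  simpa [up, shift] using this

/-- **The slice of a block-symmetric monotone Lagrangian torus is a monotone Lagrangian torus in
the product of the fine blocks.** -/
theorem isMonotoneTorus_slice (b : ι → κ') (c : κ' → κ) (w : ρ → κ' → ℝ)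
    (e' : κ' ⊕ σ ≃ ι) (e : κ ⊕ (ρ ⊕ σ) ≃ ι) (τ₀ : ℝ) {G : (σ → ℝ) → ι → ℂ}
    (hF : IsMonotoneTorus (c ∘ b) τ₀ e (wsweep (blockWt b w) G)) : IsMonotoneTorus b τ₀ e' G := by
  have hG : ContDiff ℝ ∞ G := contDiff_of_wsweep _ G hF.torus.smooth
  have hdet := hF.torus.immersed
  refine ⟨hF.pos, ⟨hG, ?_, ?_, ?_, ?_, ?_⟩, ?_⟩
  · exact fun y l => level_slice b c w e' e τ₀ hF y l
  · exact fun y m => fine_of_coarse b c (common_slice b c w e hF.torus y m)
  · exact fun y y' h => embedded_slice b c w e' e hF.torus y y' h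
  · intro y h
    apply hdet (up y)
    rw [frameDet_block b c w e' e hG, low_up, h]
    simp
  · intro y i j
    have h := hF.torus.lagrangian (up y) (Sum.inr i) (Sum.inr j)
    have h1 : ∀ i, pd (wsweep (blockWt b w) G) (Sum.inr i) (up y) = pd G i y := by
      intro i
      funext a; rw [pd_wsweep_inr _ hG, wang_up, E_zero, one_mul, low_up]
    rw [h1, h1] at h
    exact h
  · obtain ⟨g, hg, hper, hdg⟩ := hF.exact
    have hline : ∀ (j : σ) (y : σ → ℝ) (t : ℝ), (up (y + t • (Pi.single j 1 : σ → ℝ)) :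
        ρ ⊕ σ → ℝ) = up y + t • Pi.single (Sum.inr j) 1 := by
      intro j y t
      funext a
      rcases a with a | a
      · simp [up]
      · simp [up, Pi.single_apply]
    refine ⟨fun y => g (up y), hg.comp contDiff_up, fun y m => ?_, fun y j => ?_⟩
    · show g (up (shift y m)) = g (up y)
      rw [← shift_up, hper]
    · have h1 := hasDerivAt_line (Pi.single j 1)
        (((hg.comp contDiff_up).differentiable (by simp)).differentiableAt (x := y))
      have h2 := hasDerivAt_line (Pi.single (Sum.inr j) 1)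
        ((hg.differentiable (by simp)).differentiableAt (x := (up y : ρ ⊕ σ → ℝ)))
      have h3 : (fun t : ℝ => (g ∘ up) (y + t • (Pi.single j 1 : σ → ℝ))) =
          fun t : ℝ => g (up y + t • Pi.single (Sum.inr j) 1) := by
        funext t
        simp only [Function.comp_apply, hline]
      rw [h3] at h1
      have h4 := h1.unique h2
      have h5 : fderiv ℝ (fun y => g (up y : ρ ⊕ σ → ℝ)) y (Pi.single j 1) =
          fderiv ℝ (g ∘ up) y (Pi.single j 1) := rfl
      have hDF := contDiff_frameDet (c ∘ b) e (contDiff_wsweep (blockWt b w) hG)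
      have hDG := contDiff_frameDet b e' hG
      have h6 := hasDerivAt_line (Pi.single (Sum.inr j) 1)
        ((hDF.differentiable (by simp)).differentiableAt (x := (up y : ρ ⊕ σ → ℝ)))
      have h7 := (hasDerivAt_line (Pi.single j 1)
        ((hDG.differentiable (by simp)).differentiableAt (x := y))).mul_const
          (chg c w e' e).det
      have hval : ∀ y : σ → ℝ, frameDet (c ∘ b) e (wsweep (blockWt b w) G) (up y) =
          frameDet b e' G y * (chg c w e' e).det := by
        intro y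
        rw [frameDet_block b c w e' e hG, low_up]
        have : ∑ i, wang w (up y : ρ ⊕ σ → ℝ) (b i) = 0 :=
          Finset.sum_eq_zero fun i _ => wang_up w y (b i)
        rw [this, E_zero, one_mul]
      have h8 : (fun t : ℝ => frameDet (c ∘ b) e (wsweep (blockWt b w) G)
          (up y + t • Pi.single (Sum.inr j) 1)) =
          fun t : ℝ => frameDet b e' G (y + t • Pi.single j 1) * (chg c w e' e).det := by
        funext t
        rw [← hline, hval]
      rw [h8] at h6
      have h9 := h6.unique h7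
      have h10 : pd (wsweep (blockWt b w) G) (Sum.inr j) (up y) = pd G j y := by
        funext a; rw [pd_wsweep_inr _ hG, wang_up, E_zero, one_mul, low_up]
      rw [h5, h4, hdg, h9, h10, hval, wsweep_up]
      have h11 : (chg c w e' e).det ≠ 0 := by
        intro h
        apply hdet (up y)
        rw [hval, h, mul_zero]
      rw [mul_div_mul_right _ _ h11]

end Pool.Agent.Lib.MP_a9a507_gt
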