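import Pool.Agent.Lib.MP_a9a507_gt.Herm

/-! # MP_a9a507: the momentum of a monotone swept torus is central -/

open scoped ContDiff
open Complex

set_option linter.unusedSectionVars false
set_option linter.unusedDecidableInType false

namespace Pool.Agent.Lib.MP_a9a507_gt

variable {ι κ τ : Type} [Fintype ι] [DecidableEq ι] [Fintype κ] [DecidableEq κ]
  [Fintype τ] [DecidableEq τ]
variable {ρ σ : Type} [Fintype ρ] [DecidableEq ρ] [Fintype σ] [DecidableEq σ]

/-- The momentum of a monotone torus swept out by rotations is central. -/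
theorem central (b : ι → κ) (e : κ ⊕ (ρ ⊕ σ) ≃ ι) (τ₀ : ℝ) (w : ρ → ι → ℝ)
    {G : (σ → ℝ) → ι → ℂ} (hF : IsMonotoneTorus b τ₀ e (wsweep w G)) (y : σ → ℝ) (a : ρ) :
    ∑ i, w a i * ‖G y i‖ ^ 2 = ∑ i, w a i * τ₀ := by
  have hG : ContDiff ℝ ∞ G := contDiff_of_wsweep w G hF.torus.smooth
  obtain ⟨g, hg, hper, hdg⟩ := hF.exact
  set v : ρ ⊕ σ → ℝ := Pi.single (Sum.inl a) 1 with hv
  set K : ℝ := 2 * Real.pi * ((∑ i, w a i * ‖G y i‖ ^ 2) - ∑ i, w a i * τ₀) with hK
  have hd : ∀ t : ℝ, HasDerivAt (fun s : ℝ => g (up y + s • v)) K t := by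
    intro t
    have h1 := hasDerivAt_line v
      ((hg.differentiable (by simp)).differentiableAt (x := up y + t • v))
    have h4 : ∀ s : ℝ, low (up y + s • v) = y := by
      intro s
      rw [low_add_smul, hv, low_inl', smul_zero, add_zero, low_up]
    have hlog : (fderiv ℝ (frameDet b e (wsweep w G)) (up y + t • v) v /
        frameDet b e (wsweep w G) (up y + t • v)).im = 2 * Real.pi * ∑ i, w a i := by
      have hS := contDiff_frameDet b e (contDiff_wsweep w hG)
      have h5 := hasDerivAt_line v
        ((hS.differentiable (by simp)).differentiableAt (x := up y + t • v))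
      have h6 := (hasDerivAt_E (∑ i, wang w (up y + t • v) i) (∑ i, w a i) 0).mul_const
        (frameDet b e (wsweep w G) (up y))
      have h7 : (fun s : ℝ => frameDet b e (wsweep w G) (up y + t • v + s • v)) =
          fun s : ℝ => E ((∑ i, wang w (up y + t • v) i) + s * ∑ i, w a i) *
            frameDet b e (wsweep w G) (up y) := by
        funext s
        rw [frameDet_wsweep b e w hG]
        have h8 : low (up y + t • v + s • v) = y := by
          rw [low_add_smul, h4, hv, low_inl', smul_zero, add_zero]
        rw [h8]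
        congr 2
        rw [Finset.mul_sum, ← Finset.sum_add_distrib]
        refine Finset.sum_congr rfl fun i _ => ?_
        rw [wang_add_smul, hv, wang_inl]
      rw [h7] at h5
      have h9 := h5.unique h6
      have h10 : frameDet b e (wsweep w G) (up y + t • v) =
          E (∑ i, wang w (up y + t • v) i) * frameDet b e (wsweep w G) (up y) := by
        rw [frameDet_wsweep b e w hG, h4]
      rw [h9, h10]
      have h11 := hF.torus.immersed (up y)
      have h12 := E_ne (∑ i, wang w (up y + t • v) i)
      have h13 : E ((∑ i, wang w (up y + t • v) i) + 0 * ∑ i, w a i) *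
          (2 * Real.pi * ((∑ i, w a i : ℝ) : ℂ) * I) * frameDet b e (wsweep w G) (up y) /
          (E (∑ i, wang w (up y + t • v) i) * frameDet b e (wsweep w G) (up y)) =
          ((2 * Real.pi * ∑ i, w a i : ℝ) : ℂ) * I := by
        rw [zero_mul, add_zero]
        push_cast
        field_simp
      rw [h13, Complex.im_ofReal_mul, Complex.I_im, mul_one]
    have hherm : (herm (wsweep w G (up y + t • v))
        (pd (wsweep w G) (Sum.inl a) (up y + t • v))).im =
        2 * Real.pi * ∑ i, w a i * ‖G y i‖ ^ 2 := by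
      have h5 : wsweep w G (up y + t • v) = fun i => E (wang w (up y + t • v) i) * G y i := by
        funext i; rw [wsweep_eq, h4]
      have h6 : pd (wsweep w G) (Sum.inl a) (up y + t • v) = fun i =>
          E (wang w (up y + t • v) i) * (2 * Real.pi * I * w a i * G y i) := by
        funext i; rw [pd_wsweep_inl w hG, h4]
      rw [h5, h6, herm_rot]
      have h7 : herm (G y) (fun i => 2 * Real.pi * I * w a i * G y i) =
          ((2 * Real.pi * ∑ i, w a i * ‖G y i‖ ^ 2 : ℝ) : ℂ) * I := by
        unfold herm
        push_cast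
        rw [Finset.mul_sum, Finset.sum_mul]
        refine Finset.sum_congr rfl fun i _ => ?_
        have h8 : (starRingEnd ℂ) (G y i) * G y i = (‖G y i‖ : ℂ) ^ 2 := by
          rw [← Complex.normSq_eq_conj_mul_self, Complex.normSq_eq_norm_sq]; norm_cast
        linear_combination (2 * Real.pi * I * w a i) * h8
      rw [h7, Complex.im_ofReal_mul, Complex.I_im, mul_one]
    have h2 : fderiv ℝ g (up y + t • v) v = K := by
      rw [hv, hdg, ← hv, hlog, hherm, hK, ← Finset.sum_mul]
      ring
    rw [h2] at h1
    have h6 := HasDerivAt.comp_sub_const (f := fun s : ℝ => g (up y + t • v + s • v))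
      (f' := K) t t (by rw [sub_self]; exact h1)
    refine h6.congr_of_eventuallyEq (Filter.Eventually.of_forall fun s => ?_)
    simp only
    congr 1
    rw [add_assoc, ← add_smul]
    congr 2
    ring
  obtain ⟨s, -, hs⟩ := exists_hasDerivAt_eq_slope (fun s : ℝ => g (up y + s • v)) (fun _ => K)
    one_pos (fun t _ => (hd t).continuousAt.continuousWithinAt) (fun t _ => hd t)
  have h7 : up y + (1 : ℝ) • v = shift (up y) (Pi.single (Sum.inl a) 1) := by
    funext c
    rw [hv]
    simp only [shift, one_smul, Pi.add_apply, Pi.single_apply]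
    split_ifs <;> simp
  rw [h7, hper] at hs
  simp only [zero_smul, add_zero, sub_self, sub_zero, div_one] at hs
  rw [hK] at hs
  have h9 : (2 * Real.pi : ℝ) ≠ 0 := by positivity
  have := (mul_eq_zero.1 hs).resolve_left h9
  linarith

/-- The momentum of a monotone swept torus, for all infinitesimal rotations. -/
theorem moment (b : ι → κ) (e : κ ⊕ (ρ ⊕ σ) ≃ ι) (τ₀ : ℝ) (w : ρ → ι → ℝ)
    {G : (σ → ℝ) → ι → ℂ} (hF : IsMonotoneTorus b τ₀ e (wsweep w G)) (y : σ → ℝ)
    (α : κ → ℝ) (β : ρ → ℝ) :
    ∑ j, wt b w α β j * ‖G y j‖ ^ 2 = ∑ j, wt b w α β j * τ₀ := by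
  have h1 : ∀ j, wt b w α β j * ‖G y j‖ ^ 2 = (∑ k, if b j = k then α k * ‖G y j‖ ^ 2 else 0) +
      ∑ a, β a * (w a j * ‖G y j‖ ^ 2) := by
    intro j
    unfold wt
    rw [add_mul, Finset.sum_mul]
    congr 1
    · simp
    · exact Finset.sum_congr rfl fun a _ => by ring
  have h2 : ∀ j, wt b w α β j * τ₀ = (∑ k, if b j = k then α k * τ₀ else 0) +
      ∑ a, β a * (w a j * τ₀) := by
    intro j
    unfold wt
    rw [add_mul, Finset.sum_mul]
    congr 1
    · simp
    · exact Finset.sum_congr rfl fun a _ => by ring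
  simp only [h1, h2, Finset.sum_add_distrib]
  congr 1
  · rw [Finset.sum_comm, Finset.sum_comm (f := fun j k => if b j = k then α k * τ₀ else 0)]
    refine Finset.sum_congr rfl fun k _ => ?_
    have h4 := hF.torus.level (up y) k
    rw [wsweep_up] at h4
    have h5 : (∑ j, if b j = k then α k * ‖G y j‖ ^ 2 else 0) = α k * normB b k (G y) := by
      unfold normB
      rw [Finset.mul_sum]
      exact Finset.sum_congr rfl fun j _ => by split_ifs <;> simp
    have h6 : (∑ j, if b j = k then α k * τ₀ else 0) = α k * (τ₀ * size b k) := by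
      unfold size
      rw [Finset.card_filter]
      push_cast
      rw [Finset.mul_sum, Finset.mul_sum]
      exact Finset.sum_congr rfl fun j _ => by split_ifs <;> simp
    rw [h5, h6, h4]
  · rw [Finset.sum_comm, Finset.sum_comm (f := fun j a => β a * (w a j * τ₀))]
    refine Finset.sum_congr rfl fun a _ => ?_
    rw [← Finset.mul_sum, ← Finset.mul_sum, central b e τ₀ w hF y a]

end Pool.Agent.Lib.MP_a9a507_gt
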