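import Pool.Agent.Lib.MP_a9a507_gt.Arith
import Pool.Agent.Lib.MP_a9a507_gt.BlockIsotopy

/-! # MP_a9a507: circles acting on projective space with all weights but two equal -/

open scoped ContDiff
open Complex

set_option linter.unusedSectionVars false
set_option linter.unusedDecidableInType false

namespace Pool.Agent.Lib.MP_a9a507_gt

variable {ι σ : Type} [Fintype ι] [DecidableEq ι] [Fintype σ] [DecidableEq σ]

/-- The two blocks `{p, m}` and the rest: the product `ℂP¹ × ℂP^(n-2)`. -/
def pairBlocks (p m : ι) (i : ι) : Bool := decide (i = p ∨ i = m)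

lemma pairBlocks_surj (h3 : 2 < Fintype.card ι) (p m : ι) :
    Function.Surjective (pairBlocks p m) := by
  intro t
  rcases t with _ | _
  · have : ({p, m} : Finset ι).card < Fintype.card ι :=
      lt_of_le_of_lt (Finset.card_le_two) h3
    obtain ⟨i, hi⟩ := Finset.exists_mem_notMem_of_card_lt_card
      (s := {p, m}) (t := Finset.univ) (by simpa using this)
    refine ⟨i, ?_⟩
    have h := hi.2
    simp only [Finset.mem_insert, Finset.mem_singleton] at h
    simp [pairBlocks, h]
  · exact ⟨p, by simp [pairBlocks]⟩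

theorem circle_local (h3 : 2 < Fintype.card ι) (p m : ι)
    (hQ : ∀ (τ₀ : ℝ) (e' : Bool ⊕ σ ≃ ι) (G : (σ → ℝ) → ι → ℂ),
      IsMonotoneTorus (pairBlocks p m) τ₀ e' G →
        IsLocal (pairBlocks p m) (fun l => τ₀ * size (pairBlocks p m) l) e' G)
    (e : Unit ⊕ (Unit ⊕ σ) ≃ ι) (τ₀ : ℝ) (w : Unit → ι → ℝ) (c₀ : ℝ)
    (hw : ∀ l, l ≠ p → l ≠ m → w () l = c₀) (G : (σ → ℝ) → ι → ℂ)
    (hF : IsMonotoneTorus (fun _ => ()) τ₀ e (wsweep w G)) :
    IsLocal (fun _ => ()) (fun k => τ₀ * size (fun _ : ι => ()) k) e (wsweep w G) := by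
  by_cases hne : w () p = w () m
  · set w' : Unit → Bool → ℝ := fun _ t => if t then w () p else c₀ with hw'
    have h1 : blockWt (pairBlocks p m) w' = w := by
      funext a i
      simp only [blockWt, hw', pairBlocks, decide_eq_true_eq]
      by_cases hi : i = p ∨ i = m
      · rw [if_pos hi]
        rcases hi with h | h
        · rw [h]
        · rw [h, hne]
      · rw [if_neg hi]
        push Not at hi
        exact (hw i hi.1 hi.2).symm
    have hF' : IsMonotoneTorus ((fun _ : Bool => ()) ∘ pairBlocks p m) τ₀ e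
        (wsweep (blockWt (pairBlocks p m) w') G) := by
      rw [h1]; exact hF
    set e' : Bool ⊕ σ ≃ ι := (Equiv.sumCongr Equiv.boolEquivPUnitSumPUnit (Equiv.refl σ)).trans
      ((Equiv.sumAssoc Unit Unit σ).trans e) with he'
    have hG := isMonotoneTorus_slice (pairBlocks p m) (fun _ => ()) w' e' e τ₀ hF'
    obtain ⟨H, hH, h0, hmiss⟩ := hQ τ₀ e' G hG
    have h2 := isLocal_block (pairBlocks p m) (fun _ => ()) w' (pairBlocks_surj h3 p m) e' e τ₀
      hF' H hH h0 (fun k => ⟨true, rfl, hmiss true⟩)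
    rw [h1] at h2
    exact h2
  · obtain ⟨i, hi⟩ := circle_two e τ₀ w hF p m c₀ hw hne
    exact isLocal_of_misses _ _ e hF.torus fun k => misses_of_ne (fun _ => ()) i hi

end Pool.Agent.Lib.MP_a9a507_gt
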