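import Pool.Agent.Lib.MP_a9a507_gt.ToricLocal

/-! # MP_a9a507: a criterion in terms of the weights -/

open scoped ContDiff
open Complex

set_option linter.unusedSectionVars false
set_option linter.unusedDecidableInType false

namespace Pool.Agent.Lib.MP_a9a507_gt

variable {ι κ : Type} [Fintype ι] [DecidableEq ι] [Fintype κ] [DecidableEq κ]
variable {ρ σ : Type} [Fintype ρ] [DecidableEq ρ] [Fintype σ] [DecidableEq σ]

/-- A nonzero infinitesimal rotation does not vanish at a point of the torus. -/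
lemma rot_ne (b : ι → κ) (e : κ ⊕ (ρ ⊕ σ) ≃ ι) (w : ρ → ι → ℝ) {G : (σ → ℝ) → ι → ℂ}
    (hG : ContDiff ℝ ∞ G) (y : σ → ℝ) (hdet : frameDet b e (wsweep w G) (up y) ≠ 0)
    (α : κ → ℝ) (β : ρ → ℝ) (h : ∀ i, (wt b w α β i : ℂ) * G y i = 0) :
    α = 0 ∧ β = 0 := by
  set v : ι → ℂ := fun q => Sum.elim (fun k => (α k : ℂ))
    (Sum.elim (fun a => ((β a / (2 * Real.pi) : ℝ) : ℂ)) fun _ => 0) (e.symm q) with hv
  have h1 : (frame b e (wsweep w G) (up y)).mulVec v = 0 := by
    funext i
    rw [Matrix.mulVec, dotProduct, ← Equiv.sum_comp e, Fintype.sum_sum_type,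
      Fintype.sum_sum_type]
    simp only [frame, Matrix.of_apply, hv, Equiv.symm_apply_apply, Sum.elim_inl, Sum.elim_inr,
      mul_zero, Finset.sum_const_zero, add_zero, Pi.zero_apply]
    have h2 : (∑ k, (if b i = k then I * wsweep w G (up y) i else 0) * (α k : ℂ)) =
        I * G y i * α (b i) := by
      rw [Finset.sum_eq_single (b i)]
      · rw [if_pos rfl, wsweep_up]
      · intro k _ hk; rw [if_neg (Ne.symm hk), zero_mul]
      · simp
    have h3 : (∑ a, pd (wsweep w G) (Sum.inl a) (up y) i * ((β a / (2 * Real.pi) : ℝ) : ℂ)) =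
        I * G y i * ((∑ a, β a * w a i : ℝ) : ℂ) := by
      push_cast
      rw [Finset.mul_sum]
      refine Finset.sum_congr rfl fun a _ => ?_
      rw [pd_wsweep_inl w hG, wang_up, E_zero, low_up]
      have hpi : (Real.pi : ℂ) ≠ 0 := by exact_mod_cast Real.pi_ne_zero
      field_simp
    rw [h2, h3, ← mul_add, ← Complex.ofReal_add]
    have h4 := h i
    unfold wt at h4
    linear_combination I * h4
  have h4 := Matrix.eq_zero_of_mulVec_eq_zero hdet h1
  constructor
  · funext k
    have := congrFun h4 (e (Sum.inl k))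
    simpa [hv] using this
  · funext a
    have := congrFun h4 (e (Sum.inr (Sum.inl a)))
    simp only [hv, Equiv.symm_apply_apply, Sum.elim_inr, Sum.elim_inl, Pi.zero_apply] at this
    have h5 : β a / (2 * Real.pi) = 0 := by exact_mod_cast this
    have h6 : (2 * Real.pi : ℝ) ≠ 0 := by positivity
    simpa [div_eq_zero_iff, h6] using h5

/-- **Weight criterion**: the coordinate with the only positive weight does not vanish on a
monotone torus with this symmetry. -/
theorem ne_of_oneUp (b : ι → κ) (e : κ ⊕ (ρ ⊕ σ) ≃ ι) (τ₀ : ℝ) (w : ρ → ι → ℝ)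
    {G : (σ → ℝ) → ι → ℂ} (hF : IsMonotoneTorus b τ₀ e (wsweep w G)) (i : ι)
    (hi : OneUp b w i) (x : ρ ⊕ σ → ℝ) : wsweep w G x i ≠ 0 := by
  have hG : ContDiff ℝ ∞ G := contDiff_of_wsweep w G hF.torus.smooth
  obtain ⟨α, β, hsum, hpos, hle⟩ := hi
  rw [wsweep_eq]
  refine mul_ne_zero (E_ne _) fun h0 => ?_
  set y := low x with hy
  have hmom : ∑ j, wt b w α β j * ‖G y j‖ ^ 2 = 0 := by
    rw [moment b e τ₀ w hF y α β, ← Finset.sum_mul, hsum, zero_mul]
  have hterm : ∀ j, wt b w α β j * ‖G y j‖ ^ 2 = 0 := by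
    have h1 : ∀ j ∈ Finset.univ, wt b w α β j * ‖G y j‖ ^ 2 ≤ 0 := by
      intro j _
      by_cases hj : j = i
      · rw [hj, h0]; simp
      · exact mul_nonpos_of_nonpos_of_nonneg (hle j hj) (by positivity)
    have h2 := (Finset.sum_eq_zero_iff_of_nonpos h1).1 hmom
    exact fun j => h2 j (Finset.mem_univ j)
  have hz : ∀ j, (wt b w α β j : ℂ) * G y j = 0 := by
    intro j
    rcases mul_eq_zero.1 (hterm j) with h1 | h1
    · rw [h1]; simp
    · have : G y j = 0 := by simpa using h1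
      rw [this, mul_zero]
  obtain ⟨hα, hβ⟩ := rot_ne b e w hG y (hF.torus.immersed _) α β hz
  rw [hα, hβ] at hpos
  simp [wt] at hpos

end Pool.Agent.Lib.MP_a9a507_gt
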