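import Mathlib

/-!
# MP_a9a507: Lagrangian tori in products of projective spaces, by lifts

`ι` is the set of homogeneous coordinates, `b : ι → κ` gives the block of a coordinate, so that the
ambient space is the product over `k : κ` of the projective spaces of the coordinates in block `k`.
A torus is given by a lift `f : ℝ^τ → ℂ^ι` of its parametrisation to the product of spheres
`∑_{b i = k} |z_i|² = r k`; the form of the ambient space is the reduction of the standard form
`Im ⟨dz, dz⟩` of `ℂ^ι`.
-/

open scoped ContDiff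
open Complex

namespace Pool.Agent.Lib.MP_a9a507_gt

variable {ι κ τ : Type} [Fintype ι] [DecidableEq ι] [Fintype κ] [DecidableEq κ]
  [Fintype τ] [DecidableEq τ]

/-- `z` and `w` are lifts of the same point of the product of projective spaces
(for `z`, `w` in the same product of spheres). -/
def SamePoint (b : ι → κ) (z w : ι → ℂ) : Prop :=
  ∃ u : κ → ℂ, (∀ k, ‖u k‖ = 1) ∧ ∀ i, z i = u (b i) * w i

/-- Translation by an integer vector. -/
def shift (x : τ → ℝ) (m : τ → ℤ) : τ → ℝ := fun j => x j + (m j : ℝ)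

/-- The partial derivative `∂_j f` at `x`. -/
noncomputable def pd (f : (τ → ℝ) → ι → ℂ) (j : τ) (x : τ → ℝ) : ι → ℂ :=
  fderiv ℝ f x (Pi.single j 1)

/-- The Hermitian product `∑ conj(z_i) w_i` on `ℂ^ι`. -/
noncomputable def herm (z w : ι → ℂ) : ℂ := ∑ i, (starRingEnd ℂ) (z i) * w i

/-- The Hermitian product of the parts of `z`, `w` in block `k`. -/
noncomputable def hermB (b : ι → κ) (k : κ) (z w : ι → ℂ) : ℂ :=
  ∑ i, if b i = k then (starRingEnd ℂ) (z i) * w i else 0

/-- The squared norm of the part of `z` in block `k`. -/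
noncomputable def normB (b : ι → κ) (k : κ) (z : ι → ℂ) : ℝ :=
  ∑ i, if b i = k then ‖z i‖ ^ 2 else 0

/-- The number of coordinates in block `k`. -/
def size (b : ι → κ) (k : κ) : ℕ := (Finset.univ.filter fun i => b i = k).card

/-- The frame at `f x` of the preimage in `ℂ^ι` of the torus: the columns are the vectors
`i f^{(k)}`, `k : κ` (`f^{(k)}` is the part of `f` in block `k`), and `∂_j f`, `j : τ`. -/
noncomputable def frame (b : ι → κ) (e : κ ⊕ τ ≃ ι) (f : (τ → ℝ) → ι → ℂ) (x : τ → ℝ) :
    Matrix ι ι ℂ :=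
  Matrix.of fun i a =>
    Sum.elim (fun k => if b i = k then I * f x i else 0) (fun j => pd f j x i) (e.symm a)

/-- The determinant of the frame. -/
noncomputable def frameDet (b : ι → κ) (e : κ ⊕ τ ≃ ι) (f : (τ → ℝ) → ι → ℂ) (x : τ → ℝ) : ℂ :=
  (frame b e f x).det

/-- `f` is a lift of a parametrised embedded Lagrangian torus in the product of the projective
spaces of the blocks of `b`, with the form reduced from the spheres of squared radii `r k`. The
bijection `e` says that the torus has half the dimension of the product. For a Lagrangian `f` the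
vectors `i f^{(k)}`, `∂_j f` are linearly independent over `ℝ` (`f` induces an immersion) iff they
are so over `ℂ`, which is `immersed`. -/
structure IsLagrangianTorus (b : ι → κ) (r : κ → ℝ) (e : κ ⊕ τ ≃ ι)
    (f : (τ → ℝ) → ι → ℂ) : Prop where
  smooth : ContDiff ℝ ∞ f
  level : ∀ x k, normB b k (f x) = r k
  periodic : ∀ x (m : τ → ℤ), SamePoint b (f (shift x m)) (f x)
  embedded : ∀ x y, SamePoint b (f y) (f x) → ∃ m : τ → ℤ, y = shift x m
  immersed : ∀ x, frameDet b e f x ≠ 0
  lagrangian : ∀ x i j, (herm (pd f i x) (pd f j x)).im = 0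

/-- `f` is a lift of a monotone Lagrangian torus: the radii are proportional to the sizes of the
blocks, and `Im ⟨f, df⟩ - τ₀ d arg (frameDet f)` is the differential of a function on the torus. -/
structure IsMonotoneTorus (b : ι → κ) (τ₀ : ℝ) (e : κ ⊕ τ ≃ ι)
    (f : (τ → ℝ) → ι → ℂ) : Prop where
  pos : 0 < τ₀
  torus : IsLagrangianTorus b (fun k => τ₀ * size b k) e f
  exact : ∃ g : (τ → ℝ) → ℝ, ContDiff ℝ ∞ g ∧ (∀ x (m : τ → ℤ), g (shift x m) = g x) ∧
    ∀ x j, fderiv ℝ g x (Pi.single j 1) = (herm (f x) (pd f j x)).im -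
      τ₀ * (fderiv ℝ (frameDet b e f) x (Pi.single j 1) / frameDet b e f x).im

/-- `H` is a lift, horizontal in `t`, of an exact isotopy of embedded Lagrangian tori; by the
isotopy extension theorem these are the restrictions of Hamiltonian isotopies. -/
structure IsHamIsotopy (b : ι → κ) (r : κ → ℝ) (e : κ ⊕ τ ≃ ι)
    (H : ℝ → (τ → ℝ) → ι → ℂ) : Prop where
  smooth : ContDiff ℝ ∞ (fun p : ℝ × (τ → ℝ) => H p.1 p.2)
  torus : ∀ t, IsLagrangianTorus b r e (H t)
  horizontal : ∀ t x k, hermB b k (H t x) (deriv (fun s => H s x) t) = 0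
  exact : ∃ h : ℝ → (τ → ℝ) → ℝ, ContDiff ℝ ∞ (fun p : ℝ × (τ → ℝ) => h p.1 p.2) ∧
    (∀ t x (m : τ → ℤ), h t (shift x m) = h t x) ∧
    ∀ t x j, fderiv ℝ (h t) x (Pi.single j 1) =
      (herm (deriv (fun s => H s x) t) (pd (H t) j x)).im

/-- The part of the torus `f` in block `k` lies off a hyperplane. -/
def MissesHyperplane (b : ι → κ) (k : κ) (f : (τ → ℝ) → ι → ℂ) : Prop :=
  ∃ a : ι → ℂ, ∀ x, ∑ i, (if b i = k then a i * f x i else 0) ≠ 0

/-- The torus `f` is Hamiltonian isotopic to a torus in the affine part. -/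
def IsLocal (b : ι → κ) (r : κ → ℝ) (e : κ ⊕ τ ≃ ι) (f : (τ → ℝ) → ι → ℂ) : Prop :=
  ∃ H : ℝ → (τ → ℝ) → ι → ℂ, IsHamIsotopy b r e H ∧ H 0 = f ∧
    ∀ k, MissesHyperplane b k (H 1)

section Sweep

variable {ρ σ : Type} [Fintype ρ]

/-- The angle (in turns) of the rotation of the coordinate `i`, for the weights `w`. -/
noncomputable def wang (w : ρ → ι → ℝ) (x : ρ ⊕ σ → ℝ) (i : ι) : ℝ :=
  ∑ a, w a i * x (Sum.inl a)

/-- The torus swept out from the slice `G` by the torus of rotations with weights `w`. -/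
noncomputable def wsweep (w : ρ → ι → ℝ) (G : (σ → ℝ) → ι → ℂ) (x : ρ ⊕ σ → ℝ) : ι → ℂ :=
  fun i => Complex.exp (2 * Real.pi * (wang w x i : ℂ) * I) * G (fun j => x (Sum.inr j)) i

/-- The weight, at the coordinate `j`, of the infinitesimal rotation with coefficients `β`,
normalised by the constants `α` on the blocks. -/
def wt (b : ι → κ) (w : ρ → ι → ℝ) (α : κ → ℝ) (β : ρ → ℝ) (j : ι) : ℝ :=
  α (b j) + ∑ a, β a * w a j

/-- Some infinitesimal rotation of the symmetry torus has, after adding constants on the blocks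
which make the sum of the weights zero, the coordinate `i` as its only coordinate of positive
weight. For one block this says: some real combination of the weights has its entry at `i` above
its average and no other entry above its average. -/
def OneUp (b : ι → κ) (w : ρ → ι → ℝ) (i : ι) : Prop :=
  ∃ (α : κ → ℝ) (β : ρ → ℝ), ∑ j, wt b w α β j = 0 ∧ 0 < wt b w α β i ∧
    ∀ j, j ≠ i → wt b w α β j ≤ 0

end Sweep

end Pool.Agent.Lib.MP_a9a507_gt
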