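import Pool.Agent.Lib.MP_a9a507_gt.Basic

/-! # MP_a9a507: Hermitian products over blocks -/

open scoped ContDiff
open Complex

set_option linter.unusedSectionVars false
set_option linter.unusedDecidableInType false

namespace Pool.Agent.Lib.MP_a9a507_gt

variable {ι κ τ : Type} [Fintype ι] [DecidableEq ι] [Fintype κ] [DecidableEq κ]
  [Fintype τ] [DecidableEq τ]
variable {κ' : Type} [Fintype κ'] [DecidableEq κ']
variable {ρ σ : Type} [Fintype ρ] [DecidableEq ρ] [Fintype σ] [DecidableEq σ]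

lemma conj_rot (θ : ℝ) (z w : ℂ) :
    (starRingEnd ℂ) (E θ * z) * (E θ * w) = (starRingEnd ℂ) z * w := by
  rw [map_mul]
  have := conj_E_mul θ
  linear_combination ((starRingEnd ℂ) z * w) * this

lemma herm_rot (θ : ι → ℝ) (z w : ι → ℂ) :
    herm (fun i => E (θ i) * z i) (fun i => E (θ i) * w i) = herm z w := by
  unfold herm
  exact Finset.sum_congr rfl fun i _ => conj_rot _ _ _

lemma hermB_rot (b : ι → κ) (k : κ) (θ : ι → ℝ) (z w : ι → ℂ) :
    hermB b k (fun i => E (θ i) * z i) (fun i => E (θ i) * w i) = hermB b k z w := by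
  unfold hermB
  refine Finset.sum_congr rfl fun i _ => ?_
  rw [conj_rot]

lemma normB_rot (b : ι → κ) (k : κ) (θ : ι → ℝ) (z : ι → ℂ) :
    normB b k (fun i => E (θ i) * z i) = normB b k z := by
  unfold normB
  refine Finset.sum_congr rfl fun i _ => ?_
  rw [norm_mul, norm_E, one_mul]

lemma hermB_self (b : ι → κ) (k : κ) (z : ι → ℂ) : hermB b k z z = (normB b k z : ℂ) := by
  unfold hermB normB
  push_cast
  refine Finset.sum_congr rfl fun i _ => ?_
  split_ifs
  · rw [← Complex.normSq_eq_conj_mul_self, Complex.normSq_eq_norm_sq]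
  · simp

lemma hermB_coarse (b : ι → κ') (c : κ' → κ) (k : κ) (z w : ι → ℂ) :
    hermB (c ∘ b) k z w = ∑ l, if c l = k then hermB b l z w else 0 := by
  unfold hermB
  have h1 : ∀ l, (if c l = k then ∑ i, (if b i = l then (starRingEnd ℂ) (z i) * w i else 0)
      else 0) = ∑ i, if b i = l then (if c l = k then (starRingEnd ℂ) (z i) * w i else 0)
        else 0 := by
    intro l
    by_cases h : c l = k <;> simp [h]
  simp only [h1]
  rw [Finset.sum_comm]
  refine Finset.sum_congr rfl fun i _ => ?_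
  simp

lemma herm_eq_sum (b : ι → κ') (z w : ι → ℂ) : herm z w = ∑ l, hermB b l z w := by
  unfold herm hermB
  rw [Finset.sum_comm]
  exact Finset.sum_congr rfl fun i _ => by simp

lemma normB_coarse (b : ι → κ') (c : κ' → κ) (k : κ) (z : ι → ℂ) :
    normB (c ∘ b) k z = ∑ l, if c l = k then normB b l z else 0 := by
  have h := hermB_coarse b c k z z
  rw [hermB_self] at h
  simp only [hermB_self] at h
  have h2 : (∑ l, if c l = k then ((normB b l z : ℝ) : ℂ) else 0) =
      ((∑ l, if c l = k then normB b l z else 0 : ℝ) : ℂ) := by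
    push_cast
    exact Finset.sum_congr rfl fun l _ => by split_ifs <;> simp
  rw [h2] at h
  exact_mod_cast h

lemma size_coarse (b : ι → κ') (c : κ' → κ) (k : κ) :
    (size (c ∘ b) k : ℝ) = ∑ l, if c l = k then (size b l : ℝ) else 0 := by
  have h := normB_coarse b c k (fun _ => (1 : ℂ))
  have h1 : ∀ (κ₁ : Type) [Fintype κ₁] [DecidableEq κ₁] (b₁ : ι → κ₁) (k₁ : κ₁),
      normB b₁ k₁ (fun _ => (1 : ℂ)) = (size b₁ k₁ : ℝ) := by
    intro κ₁ _ _ b₁ k₁
    unfold normB size
    simp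
  simp only [h1] at h
  exact h

lemma fine_of_coarse (b : ι → κ') (c : κ' → κ) {z w : ι → ℂ} (h : SamePoint (c ∘ b) z w) :
    SamePoint b z w := by
  obtain ⟨u, hu, h⟩ := h
  exact ⟨fun l => u (c l), fun l => hu _, h⟩

lemma hermB_conj (b : ι → κ) (k : κ) (z w : ι → ℂ) :
    (starRingEnd ℂ) (hermB b k z w) = hermB b k w z := by
  unfold hermB
  rw [map_sum]
  refine Finset.sum_congr rfl fun i _ => ?_
  split_ifs
  · rw [map_mul, Complex.conj_conj, mul_comm]
  · simp

lemma hasDerivAt_time {H : ℝ → (τ → ℝ) → ι → ℂ}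
    (hH : ContDiff ℝ ∞ (fun p : ℝ × (τ → ℝ) => H p.1 p.2)) (x : τ → ℝ) (t : ℝ) :
    HasDerivAt (fun s => H s x) (deriv (fun s => H s x) t) t := by
  have h1 : ContDiff ℝ ∞ (fun s => H s x) := hH.comp (contDiff_prodMk_left x)
  exact ((h1.differentiable (by simp)).differentiableAt).hasDerivAt

/-- A block of positive radius has a nonzero coordinate. -/
lemma exists_ne (b : ι → κ) (k : κ) (z : ι → ℂ) (h : 0 < normB b k z) :
    ∃ i, b i = k ∧ z i ≠ 0 := by
  by_contra hne
  push Not at hne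
  have : normB b k z = 0 := by
    unfold normB
    refine Finset.sum_eq_zero fun i _ => ?_
    split_ifs with hi
    · rw [hne i hi]; simp
    · rfl
  linarith

/-- Differentiating the level: `Re ⟨f^{(k)}, ∂_j f^{(k)}⟩ = 0`. -/
lemma re_hermB_pd (b : ι → κ) {r : κ → ℝ} {f : (τ → ℝ) → ι → ℂ} (hf : ContDiff ℝ ∞ f)
    (hl : ∀ x k, normB b k (f x) = r k) (k : κ) (j : τ) (x : τ → ℝ) :
    (hermB b k (f x) (pd f j x)).re = 0 := by
  have h1 := hasDerivAt_line (Pi.single j 1) ((hf.differentiable (by simp)).differentiableAt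
    (x := x))
  have h2 : HasDerivAt (fun t : ℝ => hermB b k (f (x + t • (Pi.single j 1 : τ → ℝ)))
      (f (x + t • (Pi.single j 1 : τ → ℝ))))
      (hermB b k (pd f j x) (f x) + hermB b k (f x) (pd f j x)) 0 := by
    unfold hermB
    rw [← Finset.sum_add_distrib]
    refine HasDerivAt.fun_sum fun i _ => ?_
    by_cases h : b i = k
    · simp only [if_pos h]
      have h1' := (hasDerivAt_pi.1 h1) i
      have h4 : HasDerivAt (fun t : ℝ => (starRingEnd ℂ) (f (x + t • (Pi.single j 1 : τ → ℝ)) i))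
          ((starRingEnd ℂ) (pd f j x i)) 0 := h1'.star
      have h5 := h4.mul h1'
      simp only [zero_smul, add_zero] at h5
      exact h5
    · simp only [if_neg h, add_zero]
      exact hasDerivAt_const _ _
  have h3 : (fun t : ℝ => hermB b k (f (x + t • (Pi.single j 1 : τ → ℝ)))
      (f (x + t • (Pi.single j 1 : τ → ℝ)))) = fun _ => (r k : ℂ) := by
    funext t; rw [hermB_self, hl]
  rw [h3] at h2
  have h4 := h2.unique (hasDerivAt_const (0 : ℝ) (r k : ℂ))
  have h5 := congrArg Complex.re h4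
  rw [← hermB_conj, Complex.add_re, Complex.conj_re] at h5
  simp at h5
  linarith

lemma isHamIsotopy_const (b : ι → κ) (r : κ → ℝ) (e : κ ⊕ τ ≃ ι) {f : (τ → ℝ) → ι → ℂ}
    (hf : IsLagrangianTorus b r e f) : IsHamIsotopy b r e (fun _ => f) := by
  refine ⟨hf.smooth.comp contDiff_snd, fun _ => hf, fun t x k => ?_,
    ⟨fun _ _ => 0, contDiff_const, fun _ _ _ => rfl, fun t x j => ?_⟩⟩
  · unfold hermB; simp
  · unfold herm; simp

lemma size_pos (b : ι → κ) (hb : Function.Surjective b) (k : κ) : 0 < size b k := by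
  obtain ⟨i, hi⟩ := hb k
  exact Finset.card_pos.2 ⟨i, by simp [hi]⟩

lemma isLocal_of_misses {τ : Type} [Fintype τ] [DecidableEq τ] (b : ι → κ) (r : κ → ℝ)
    (e : κ ⊕ τ ≃ ι) {f : (τ → ℝ) → ι → ℂ} (hf : IsLagrangianTorus b r e f)
    (h : ∀ k, MissesHyperplane b k f) : IsLocal b r e f :=
  ⟨fun _ => f, isHamIsotopy_const b r e hf, rfl, h⟩

lemma misses_of_ne {τ : Type} [Fintype τ] (b : ι → κ) (i : ι) {f : (τ → ℝ) → ι → ℂ}
    (h : ∀ x, f x i ≠ 0) : MissesHyperplane b (b i) f := by
  refine ⟨fun i' => if i' = i then 1 else 0, fun x => ?_⟩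
  rw [Finset.sum_eq_single i]
  · beta_reduce
    rw [if_pos rfl, if_pos rfl, one_mul]
    exact h x
  · intro j _ hj
    beta_reduce
    rw [if_neg hj, zero_mul, ite_self]
  · simp

end Pool.Agent.Lib.MP_a9a507_gt
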