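import Pool.Agent.Lib.MP_a9a507_gt.Central

/-! # MP_a9a507: tori with a symmetry torus of dimension one less

`σ = Unit`: the monotone torus is swept out from a curve by an `(n-1)`-dimensional torus of
rotations with arbitrary weights.
-/

open scoped ContDiff
open Complex

set_option linter.unusedSectionVars false
set_option linter.unusedDecidableInType false

namespace Pool.Agent.Lib.MP_a9a507_gt

variable {ι κ : Type} [Fintype ι] [DecidableEq ι] [Fintype κ] [DecidableEq κ]
variable {ρ : Type} [Fintype ρ] [DecidableEq ρ]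

section
variable (b : ι → κ) (e : κ ⊕ (ρ ⊕ Unit) ≃ ι) (w : ρ → ι → ℝ) {G : (Unit → ℝ) → ι → ℂ}

/-- The characters `1_k` and `w a` are linearly independent. -/
lemma chars_indep (hG : ContDiff ℝ ∞ G) (hdet : frameDet b e (wsweep w G) (up 0) ≠ 0)
    (α : κ → ℝ) (β : ρ → ℝ) (h : ∀ i, α (b i) + ∑ a, β a * w a i = 0) :
    α = 0 ∧ β = 0 := by
  set v : ι → ℂ := fun q => Sum.elim (fun k => (α k : ℂ))
    (Sum.elim (fun a => ((β a / (2 * Real.pi) : ℝ) : ℂ)) fun _ => 0) (e.symm q) with hv
  have h1 : (frame b e (wsweep w G) (up 0)).mulVec v = 0 := by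
    funext i
    rw [Matrix.mulVec, dotProduct, ← Equiv.sum_comp e, Fintype.sum_sum_type,
      Fintype.sum_sum_type]
    simp only [frame, Matrix.of_apply, hv, Equiv.symm_apply_apply, Sum.elim_inl, Sum.elim_inr,
      mul_zero, Finset.sum_const_zero, add_zero, Pi.zero_apply]
    have h2 : (∑ k, (if b i = k then I * wsweep w G (up 0) i else 0) * (α k : ℂ)) =
        I * G 0 i * α (b i) := by
      rw [Finset.sum_eq_single (b i)]
      · rw [if_pos rfl, wsweep_up]
      · intro k _ hk; rw [if_neg (Ne.symm hk), zero_mul]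
      · simp
    have h3 : (∑ a, pd (wsweep w G) (Sum.inl a) (up 0) i * ((β a / (2 * Real.pi) : ℝ) : ℂ)) =
        I * G 0 i * ((∑ a, β a * w a i : ℝ) : ℂ) := by
      push_cast
      rw [Finset.mul_sum]
      refine Finset.sum_congr rfl fun a _ => ?_
      rw [pd_wsweep_inl w hG, wang_up, E_zero, low_up]
      have hpi : (Real.pi : ℂ) ≠ 0 := by exact_mod_cast Real.pi_ne_zero
      field_simp
    rw [h2, h3, ← mul_add, ← Complex.ofReal_add, h i]
    simp
  have h4 := Matrix.eq_zero_of_mulVec_eq_zero hdet h1
  constructor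
  · funext k
    have := congrFun h4 (e (Sum.inl k))
    simpa [hv] using this
  · funext a
    have := congrFun h4 (e (Sum.inr (Sum.inl a)))
    simp only [hv, Equiv.symm_apply_apply, Sum.elim_inr, Sum.elim_inl, Pi.zero_apply] at this
    have h5 : β a / (2 * Real.pi) = 0 := by exact_mod_cast this
    have h6 : (2 * Real.pi : ℝ) ≠ 0 := by positivity
    simpa [div_eq_zero_iff, h6] using h5

/-- At most one coordinate vanishes at a point of the torus, and none vanishes with its
derivative. -/
lemma not_two (hG : ContDiff ℝ ∞ G) (y : Unit → ℝ)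
    (hdet : frameDet b e (wsweep w G) (up y) ≠ 0) {i j : ι} (hij : i ≠ j)
    (hi : G y i = 0) (hj : G y j = 0) : False := by
  have hrow : ∀ l, G y l = 0 → ∀ q, frame b e (wsweep w G) (up y) l q =
      Sum.elim (fun _ => 0) (Sum.elim (fun _ => 0) fun _ => pd G () y l) (e.symm q) := by
    intro l hl q
    simp only [frame, Matrix.of_apply]
    rcases h : e.symm q with k | a | j
    · simp only [Sum.elim_inl]
      rw [wsweep_up, hl, mul_zero, ite_self]
    · simp only [Sum.elim_inr, Sum.elim_inl]
      rw [pd_wsweep_inl w hG, low_up, hl, mul_zero, mul_zero]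
    · simp only [Sum.elim_inr]
      rw [pd_wsweep_inr w hG, wang_up, E_zero, one_mul, low_up]
  by_cases h0 : pd G () y i = 0
  · apply hdet
    unfold frameDet
    refine Matrix.det_eq_zero_of_row_eq_zero i fun q => ?_
    rw [hrow i hi, h0]
    rcases e.symm q with k | a | j <;> rfl
  · set v : ι → ℂ := fun l => if l = i then pd G () y j else if l = j then -pd G () y i else 0
      with hv
    have h1 : Matrix.vecMul v (frame b e (wsweep w G) (up y)) = 0 := by
      funext q
      rw [Matrix.vecMul, dotProduct, ← Finset.add_sum_erase _ _ (Finset.mem_univ i),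
        ← Finset.add_sum_erase _ _ (Finset.mem_erase.2 ⟨hij.symm, Finset.mem_univ j⟩)]
      rw [Finset.sum_eq_zero (s := (Finset.univ.erase i).erase j), add_zero]
      · rw [hrow i hi, hrow j hj]
        simp only [hv, if_true, if_neg hij.symm, Pi.zero_apply]
        rcases e.symm q with k | a | j'
        · simp
        · simp
        · simp only [Sum.elim_inr]; ring
      · intro l hl
        have h2 := (Finset.mem_erase.1 hl).1
        have h3 := (Finset.mem_erase.1 (Finset.mem_erase.1 hl).2).1
        simp [hv, h2, h3]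
    have h4 := Matrix.eq_zero_of_vecMul_eq_zero hdet h1
    have h5 := congrFun h4 j
    simp only [hv, if_neg hij.symm, if_true, Pi.zero_apply, neg_eq_zero] at h5
    exact h0 h5

/-- The moment image of a torus with these characters moves along a line: a direction `q`. -/
lemma exists_dir (hG : ContDiff ℝ ∞ G) (hdet : frameDet b e (wsweep w G) (up 0) ≠ 0) :
    ∃ q : ι → ℝ, q ≠ 0 ∧ (∀ k, (∑ i, if b i = k then q i else 0) = 0) ∧
      (∀ a, ∑ i, w a i * q i = 0) ∧
      ∀ v : ι → ℝ, (∀ k, (∑ i, if b i = k then v i else 0) = 0) → (∀ a, ∑ i, w a i * v i = 0) →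
        ∃ t : ℝ, ∀ i, v i = t * q i := by
  set M : Matrix (κ ⊕ ρ) ι ℝ := Matrix.of fun r i =>
    Sum.elim (fun k => if b i = k then (1 : ℝ) else 0) (fun a => w a i) r with hM
  have hrow : LinearIndependent ℝ M.row := by
    rw [Fintype.linearIndependent_iff]
    intro g hg
    have h1 : ∀ i, g (Sum.inl (b i)) + ∑ a, g (Sum.inr a) * w a i = 0 := by
      intro i
      have h2 := congrFun hg i
      rw [Finset.sum_apply, Fintype.sum_sum_type] at h2
      simp only [Matrix.row, hM, Pi.smul_apply, Matrix.of_apply, Sum.elim_inl, Sum.elim_inr,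
        smul_eq_mul, mul_ite, mul_one, mul_zero, Finset.sum_ite_eq, Finset.mem_univ, if_true,
        Pi.zero_apply] at h2
      exact h2
    obtain ⟨h3, h4⟩ := chars_indep b e w hG hdet (fun k => g (Sum.inl k))
      (fun a => g (Sum.inr a)) h1
    intro r
    rcases r with k | a
    · exact congrFun h3 k
    · exact congrFun h4 a
  have hrank : M.rank = Fintype.card (κ ⊕ ρ) := hrow.rank_matrix
  have hker : Module.finrank ℝ (LinearMap.ker M.mulVecLin) = 1 := by
    have h1 := LinearMap.finrank_range_add_finrank_ker M.mulVecLin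
    rw [← Matrix.rank, hrank] at h1
    have h2 : Fintype.card (κ ⊕ (ρ ⊕ Unit)) = Fintype.card ι := Fintype.card_congr e
    simp only [Fintype.card_sum, Fintype.card_unit, Module.finrank_fintype_fun_eq_card] at h1 h2
    omega
  have hmem : ∀ v : ι → ℝ, v ∈ LinearMap.ker M.mulVecLin ↔
      (∀ k, (∑ i, if b i = k then v i else 0) = 0) ∧ (∀ a, ∑ i, w a i * v i = 0) := by
    intro v
    rw [LinearMap.mem_ker, Matrix.mulVecLin_apply]
    constructor
    · intro h
      constructor
      · intro k
        have h1 := congrFun h (Sum.inl k)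
        simpa [Matrix.mulVec, dotProduct, hM] using h1
      · intro a
        have h1 := congrFun h (Sum.inr a)
        simpa [Matrix.mulVec, dotProduct, hM] using h1
    · rintro ⟨h1, h2⟩
      funext r
      rcases r with k | a
      · have := h1 k
        simpa [Matrix.mulVec, dotProduct, hM] using this
      · have := h2 a
        simpa [Matrix.mulVec, dotProduct, hM] using this
  obtain ⟨⟨q, hq⟩, hq0, hspan⟩ := finrank_eq_one_iff'.1 hker
  have hq' := (hmem q).1 hq
  refine ⟨q, fun h => hq0 (Subtype.ext h), hq'.1, hq'.2, fun v h1 h2 => ?_⟩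
  obtain ⟨t, ht⟩ := hspan ⟨v, (hmem v).2 ⟨h1, h2⟩⟩
  refine ⟨t, fun i => ?_⟩
  have h3 := congrArg Subtype.val ht
  exact (congrFun h3 i).symm

/-- The characters span the orthogonal complement of `q`. -/
lemma exists_chars (hG : ContDiff ℝ ∞ G) (hdet : frameDet b e (wsweep w G) (up 0) ≠ 0)
    (q : ι → ℝ) (hq0 : q ≠ 0) (hq1 : ∀ k, (∑ i, if b i = k then q i else 0) = 0)
    (hq2 : ∀ a, ∑ i, w a i * q i = 0) (v : ι → ℝ) (hv : ∑ i, v i * q i = 0) :
    ∃ (c : κ → ℝ) (s : ρ → ℝ), ∀ i, c (b i) + ∑ a, s a * w a i = v i := by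
  set N : Matrix ι ι ℝ := Matrix.of fun i r =>
    Sum.elim (fun k => if b i = k then (1 : ℝ) else 0)
      (Sum.elim (fun a => w a i) fun _ => q i) (e.symm r) with hN
  have hval : ∀ (u : ι → ℝ) (i : ι), N.mulVec u i = u (e (Sum.inl (b i))) +
      ((∑ a, u (e (Sum.inr (Sum.inl a))) * w a i) + u (e (Sum.inr (Sum.inr ()))) * q i) := by
    intro u i
    rw [Matrix.mulVec, dotProduct, ← Equiv.sum_comp e, Fintype.sum_sum_type,
      Fintype.sum_sum_type]
    simp only [hN, Matrix.of_apply, Equiv.symm_apply_apply, Sum.elim_inl, Sum.elim_inr, ite_mul,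
      one_mul, zero_mul, Finset.sum_ite_eq, Finset.mem_univ, if_true, Finset.univ_unique,
      Finset.sum_singleton]
    congr 1
    congr 1
    · exact Finset.sum_congr rfl fun a _ => mul_comm _ _
    · exact mul_comm _ _
  have hdot : ∀ u : ι → ℝ, ∑ i, N.mulVec u i * q i =
      u (e (Sum.inr (Sum.inr ()))) * ∑ i, q i * q i := by
    intro u
    simp only [hval, add_mul, Finset.sum_add_distrib]
    have h1 : ∑ i, u (e (Sum.inl (b i))) * q i = 0 := by
      have h2 : ∀ i, u (e (Sum.inl (b i))) * q i =
          ∑ k, if b i = k then u (e (Sum.inl k)) * q i else 0 := by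
        intro i; simp
      simp only [h2]
      rw [Finset.sum_comm]
      refine Finset.sum_eq_zero fun k _ => ?_
      have h3 : (∑ i, if b i = k then u (e (Sum.inl k)) * q i else 0) =
          u (e (Sum.inl k)) * ∑ i, if b i = k then q i else 0 := by
        rw [Finset.mul_sum]
        exact Finset.sum_congr rfl fun i _ => by split_ifs <;> simp
      rw [h3, hq1, mul_zero]
    have h4 : ∑ i, (∑ a, u (e (Sum.inr (Sum.inl a))) * w a i) * q i = 0 := by
      simp only [Finset.sum_mul]
      rw [Finset.sum_comm]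
      refine Finset.sum_eq_zero fun a _ => ?_
      have h5 : ∑ i, u (e (Sum.inr (Sum.inl a))) * w a i * q i =
          u (e (Sum.inr (Sum.inl a))) * ∑ i, w a i * q i := by
        rw [Finset.mul_sum]
        exact Finset.sum_congr rfl fun i _ => by ring
      rw [h5, hq2, mul_zero]
    rw [h1, h4, zero_add, zero_add, Finset.mul_sum]
    exact Finset.sum_congr rfl fun i _ => by ring
  have hqq : ∑ i, q i * q i ≠ 0 := by
    intro h
    apply hq0
    funext i
    have := (Finset.sum_eq_zero_iff_of_nonneg fun i _ => mul_self_nonneg (q i)).1 h i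
      (Finset.mem_univ i)
    simpa using this
  have hinj : Function.Injective N.mulVecLin := by
    rw [injective_iff_map_eq_zero]
    intro u hu
    rw [Matrix.mulVecLin_apply] at hu
    have h1 := hdot u
    rw [hu] at h1
    simp only [Pi.zero_apply, zero_mul, Finset.sum_const_zero] at h1
    have h2 := (mul_eq_zero.1 h1.symm).resolve_right hqq
    obtain ⟨h3, h4⟩ := chars_indep b e w hG hdet (fun k => u (e (Sum.inl k)))
      (fun a => u (e (Sum.inr (Sum.inl a)))) (fun i => by
        have h5 := congrFun hu i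
        rw [hval, h2, zero_mul, add_zero] at h5
        exact h5)
    funext r
    obtain ⟨r, rfl⟩ := e.surjective r
    rcases r with k | a | j
    · exact congrFun h3 k
    · exact congrFun h4 a
    · exact h2
  obtain ⟨u, hu⟩ := (LinearMap.injective_iff_surjective.1 hinj) v
  rw [Matrix.mulVecLin_apply] at hu
  have h1 := hdot u
  rw [hu, hv] at h1
  have h2 := (mul_eq_zero.1 h1.symm).resolve_right hqq
  refine ⟨fun k => u (e (Sum.inl k)), fun a => u (e (Sum.inr (Sum.inl a))), fun i => ?_⟩
  have h5 := congrFun hu i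
  rw [hval, h2, zero_mul, add_zero] at h5
  exact h5

end

end Pool.Agent.Lib.MP_a9a507_gt
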