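import Pool.Agent.Lib.MP_a9a507_gt.Toric

/-! # MP_a9a507: monotone tori with an (n-1)-dimensional toric symmetry lie in the affine part -/

open scoped ContDiff
open Complex

set_option linter.unusedSectionVars false
set_option linter.unusedDecidableInType false

namespace Pool.Agent.Lib.MP_a9a507_gt

variable {ι κ : Type} [Fintype ι] [DecidableEq ι] [Fintype κ] [DecidableEq κ]
variable {ρ : Type} [Fintype ρ] [DecidableEq ρ]

/-- A smooth curve in the projective line misses a point. -/
lemma curve_misses {G₁ G₂ : ℝ → ℂ} (h1 : ContDiff ℝ ∞ G₁) (h2 : ContDiff ℝ ∞ G₂)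
    (h0 : ∀ t, G₁ t ≠ 0 ∨ G₂ t ≠ 0) : ∃ a₁ a₂ : ℂ, ∀ t, a₁ * G₁ t + a₂ * G₂ t ≠ 0 := by
  set Φ : ℝ × ℂ → ℂ × ℂ := fun p => (-(p.2 * G₂ p.1), p.2 * G₁ p.1) with hΦ
  have hsm : ContDiff ℝ 1 Φ := by
    have h3 : ContDiff ℝ ∞ (fun p : ℝ × ℂ => p.2 * G₂ p.1) :=
      contDiff_snd.mul (h2.comp contDiff_fst)
    have h4 : ContDiff ℝ ∞ (fun p : ℝ × ℂ => p.2 * G₁ p.1) :=
      contDiff_snd.mul (h1.comp contDiff_fst)
    exact (h3.neg.prodMk h4).of_le (by exact_mod_cast le_top)
  have hfin : Module.finrank ℝ (ℝ × ℂ) < Module.finrank ℝ (ℂ × ℂ) := by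
    rw [Module.finrank_prod, Module.finrank_prod, Module.finrank_self, Complex.finrank_real_complex]
    norm_num
  have hd := hsm.dense_compl_range_of_finrank_lt_finrank hfin
  obtain ⟨⟨a₁, a₂⟩, ha⟩ := hd.nonempty
  refine ⟨a₁, a₂, fun t ht => ha ?_⟩
  by_cases hG : G₁ t = 0
  · have hG2 := (h0 t).resolve_left (not_not.2 hG)
    rw [hG, mul_zero, zero_add] at ht
    have ha2 := (mul_eq_zero.1 ht).resolve_right hG2
    refine ⟨(t, -a₁ / G₂ t), ?_⟩
    simp only [hΦ, hG, mul_zero, ha2, Prod.mk.injEq, and_true]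
    field_simp
  · refine ⟨(t, a₂ / G₁ t), ?_⟩
    simp only [hΦ, Prod.mk.injEq]
    constructor
    · field_simp
      linear_combination -ht
    · field_simp

section
variable (b : ι → κ) (e : κ ⊕ (ρ ⊕ Unit) ≃ ι) (w : ρ → ι → ℝ) {G : (Unit → ℝ) → ι → ℂ}

/-- The differences of the momenta in units of the direction `q` are integral. -/
lemma integral_dir (τ₀ : ℝ) (hF : IsMonotoneTorus b τ₀ e (wsweep w G))
    (q : ι → ℝ) (hq0 : q ≠ 0) (hq1 : ∀ k, (∑ i, if b i = k then q i else 0) = 0)
    (hq2 : ∀ a, ∑ i, w a i * q i = 0) (p m : ι) (hpm : p ≠ m) (hb : b p = b m) (hqp : q p ≠ 0)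
    (y₁ : Unit → ℝ) (hy₁ : G y₁ p = 0) (ys : Unit → ℝ) (hys : ∀ i, G ys i ≠ 0) (j : ι)
    (hj : j ≠ p) (hjm : j ≠ m) : ∃ n : ℤ, q j = n * q p := by
  have hG : ContDiff ℝ ∞ G := contDiff_of_wsweep w G hF.torus.smooth
  have hdet := hF.torus.immersed (up 0)
  set v : ι → ℝ := fun i => if i = j then 1 else if i = p then -(q j / q p) else 0 with hv
  have hvq : ∑ i, v i * q i = 0 := by
    rw [← Finset.add_sum_erase _ _ (Finset.mem_univ j),
      ← Finset.add_sum_erase _ _ (Finset.mem_erase.2 ⟨hj.symm, Finset.mem_univ p⟩),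
      Finset.sum_eq_zero (s := (Finset.univ.erase j).erase p)]
    · simp only [hv, if_true, if_neg hj.symm]
      field_simp
      ring
    · intro i hi
      have h2 := (Finset.mem_erase.1 hi).1
      have h3 := (Finset.mem_erase.1 (Finset.mem_erase.1 hi).2).1
      simp [hv, h2, h3]
  obtain ⟨c, s, hcs⟩ := exists_chars b e w hG hdet q hq0 hq1 hq2 v hvq
  set x : ρ ⊕ Unit → ℝ := Sum.elim s y₁ with hx
  have hwang : ∀ (z : Unit → ℝ) (i : ι), wang w (Sum.elim s z : ρ ⊕ Unit → ℝ) i =
      v i - c (b i) := by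
    intro z i
    rw [← hcs i]
    unfold wang
    simp only [Sum.elim_inl]
    rw [add_sub_cancel_left]
    exact Finset.sum_congr rfl fun a _ => mul_comm _ _
  have hsame : SamePoint b (wsweep w G x) (wsweep w G (up y₁)) := by
    refine ⟨fun k => E (-c k), fun k => norm_E _, fun i => ?_⟩
    rw [wsweep_up, wsweep_eq]
    have hlow : low x = y₁ := rfl
    rw [hlow]
    by_cases hi : i = p
    · rw [hi, hy₁]; simp
    · rw [hx, hwang]
      congr 1
      by_cases hij : i = j
      · have h1 : v i = ((1 : ℤ) : ℝ) := by simp [hv, hij]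
        rw [h1, sub_eq_add_neg, E_add, E_int, one_mul]
      · have h1 : v i = 0 := by simp [hv, hij, hi]
        rw [h1, zero_sub]
  obtain ⟨m', hm'⟩ := hF.torus.embedded _ _ hsame
  have hs : ∀ a, s a = (m' (Sum.inl a) : ℝ) := by
    intro a
    have h1 := congrFun hm' (Sum.inl a)
    simpa [hx, shift, up] using h1
  obtain ⟨u, hu, hper⟩ := hF.torus.periodic (up ys)
    (Sum.elim (fun a => m' (Sum.inl a)) (fun _ => 0))
  have hshift : (shift (up ys) (Sum.elim (fun a => m' (Sum.inl a)) (fun _ => 0)) :
      ρ ⊕ Unit → ℝ) = Sum.elim s ys := by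
    funext a
    rcases a with a | a
    · simp [shift, up, hs]
    · simp [shift, up]
  rw [hshift, wsweep_up] at hper
  have hphase : ∀ i, E (v i - c (b i)) = u (b i) := by
    intro i
    have h1 := hper i
    rw [wsweep_eq, hwang] at h1
    have hlow : low (Sum.elim s ys : ρ ⊕ Unit → ℝ) = ys := rfl
    rw [hlow] at h1
    exact mul_right_cancel₀ (hys i) h1
  have h2 : E (v p - c (b p)) = E (v m - c (b m)) := by
    rw [hphase, hphase, hb]
  obtain ⟨n, hn⟩ := E_eq_iff h2
  rw [hb] at hn
  have hvp : v p = -(q j / q p) := by simp [hv, hj.symm]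
  have hvm : v m = 0 := by simp [hv, hjm.symm, hpm.symm]
  rw [hvp, hvm] at hn
  refine ⟨-n, ?_⟩
  have h3 : q j / q p = -(n : ℝ) := by linarith
  rw [div_eq_iff hqp] at h3
  rw [h3]; push_cast; ring

/-- **A monotone Lagrangian torus invariant under an `(n-1)`-dimensional torus of rotations lies
off a hyperplane in every factor.** -/
theorem toric_misses (τ₀ : ℝ) (hF : IsMonotoneTorus b τ₀ e (wsweep w G)) (k : κ) :
    MissesHyperplane b k (wsweep w G) := by
  have hG : ContDiff ℝ ∞ G := contDiff_of_wsweep w G hF.torus.smooth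
  have hdet := hF.torus.immersed (up 0)
  have hpos := hF.pos
  obtain ⟨q, hq0, hq1, hq2, hspan⟩ := exists_dir b e w hG hdet
  have hp : ∀ y, ∃ t : ℝ, ∀ i, ‖G y i‖ ^ 2 - τ₀ = t * q i := by
    intro y
    apply hspan
    · intro k
      have h1 := hF.torus.level (up y) k
      rw [wsweep_up] at h1
      have h2 : (∑ i, if b i = k then ‖G y i‖ ^ 2 - τ₀ else 0) =
          normB b k (G y) - τ₀ * size b k := by
        unfold normB size
        rw [Finset.card_filter]
        push_cast
        rw [Finset.mul_sum, ← Finset.sum_sub_distrib]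
        refine Finset.sum_congr rfl fun i _ => ?_
        split_ifs <;> simp
      rw [h2, h1, sub_self]
    · intro a
      have h1 := central b e τ₀ w hF y a
      simp only [mul_sub, Finset.sum_sub_distrib]
      rw [h1, sub_self]
  choose t ht using hp
  have hnt : ∀ y i j, i ≠ j → G y i = 0 → G y j = 0 → False := fun y i j hij hi hj =>
    not_two b e w hG y (hF.torus.immersed _) hij hi hj
  by_cases hA : ∃ i, b i = k ∧ ∀ y, G y i ≠ 0
  · obtain ⟨i, hi, hne⟩ := hA
    refine ⟨fun i' => if i' = i then 1 else 0, fun x => ?_⟩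
    rw [Finset.sum_eq_single i]
    · beta_reduce
      rw [if_pos hi, if_pos rfl, one_mul, wsweep_eq]
      exact mul_ne_zero (E_ne _) (hne _)
    · intro j _ hj
      beta_reduce
      rw [if_neg hj, zero_mul, ite_self]
    · simp
  · push Not at hA
    have hzero : ∀ i y, G y i = 0 → t y * q i = -τ₀ := by
      intro i y h
      have h1 := ht y i
      rw [h] at h1
      simp at h1
      linarith
    have hqne : ∀ i, b i = k → q i ≠ 0 := by
      intro i hi h
      obtain ⟨y, hy⟩ := hA i hi
      have h1 := hzero i y hy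
      rw [h, mul_zero] at h1
      linarith
    -- two coordinates of the block have opposite signs
    have key : ∀ i j, i ≠ j → b j = k → 0 < q i * q j → |q j| ≤ |q i| → False := by
      intro i j hij hj hs hle
      obtain ⟨y, hy⟩ := hA j hj
      have h1 := hzero j y hy
      have h2 := ht y i
      have h3 : 0 ≤ ‖G y i‖ ^ 2 := by positivity
      have h4 : q j ^ 2 ≤ q i * q j := by
        have h5 : |q j| * |q j| ≤ |q i| * |q j| := mul_le_mul_of_nonneg_right hle (abs_nonneg _)
        rw [← abs_mul, ← abs_mul, abs_of_pos hs, abs_of_nonneg (mul_self_nonneg _)] at h5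
        nlinarith
      have h6 : ‖G y i‖ ^ 2 * q j ^ 2 = τ₀ * (q j ^ 2 - q i * q j) := by
        have h7 : ‖G y i‖ ^ 2 = τ₀ + t y * q i := by linarith
        rw [h7]
        have h8 : t y * q j = -τ₀ := h1
        linear_combination (q i * q j) * h8
      have hqj : 0 < q j ^ 2 := by
        have := hqne j hj
        positivity
      have h9 : ‖G y i‖ ^ 2 * q j ^ 2 ≤ 0 := by
        rw [h6]
        exact mul_nonpos_of_nonneg_of_nonpos hpos.le (by linarith)
      have h10 : ‖G y i‖ ^ 2 ≤ 0 := by
        by_contra h11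
        push Not at h11
        have := mul_pos h11 hqj
        linarith
      have h12 : G y i = 0 := by
        have : ‖G y i‖ ^ 2 = 0 := le_antisymm h10 h3
        simpa using this
      exact hnt y i j hij h12 hy
    have hsign : ∀ i j, i ≠ j → b i = k → b j = k → q i * q j < 0 := by
      intro i j hij hi hj
      by_contra h
      push Not at h
      have h1 : 0 < q i * q j := lt_of_le_of_ne h (mul_ne_zero (hqne i hi) (hqne j hj)).symm
      rcases le_total |q j| |q i| with h2 | h2
      · exact key i j hij hj h1 h2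
      · exact key j i hij.symm hi (by rw [mul_comm]; exact h1) h2
    -- the block has exactly two coordinates
    have hex : ∃ p, b p = k := by
      by_contra h
      push Not at h
      have h1 := (chars_indep b e w hG hdet (fun k' => if k' = k then 1 else 0) 0 (by
        intro i
        simp [h i])).1
      have h2 := congrFun h1 k
      simp at h2
    obtain ⟨p, hp⟩ := hex
    have hex2 : ∃ m, b m = k ∧ m ≠ p := by
      by_contra h
      push Not at h
      have h1 := hq1 k
      rw [Finset.sum_eq_single p, if_pos hp] at h1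
      · exact hqne p hp h1
      · intro i _ hi
        rw [if_neg fun h2 => hi (h i h2)]
      · simp
    obtain ⟨m, hm, hmp⟩ := hex2
    have honly : ∀ i, b i = k → i = p ∨ i = m := by
      intro i hi
      by_contra h
      push Not at h
      have h1 := hsign i p h.1 hi hp
      have h2 := hsign i m h.2 hi hm
      have h3 := hsign p m hmp.symm hp hm
      have h4 : 0 < (q i * q p) * (q i * q m) := mul_pos_of_neg_of_neg h1 h2
      have h5 : (q i * q p) * (q i * q m) = q i ^ 2 * (q p * q m) := by ring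
      rw [h5] at h4
      have h6 : 0 ≤ q i ^ 2 := sq_nonneg _
      have h7 : q i ^ 2 * (q p * q m) ≤ 0 := mul_nonpos_of_nonneg_of_nonpos h6 h3.le
      linarith
    have hsum : ∀ f : ι → ℝ, (∑ i, if b i = k then f i else 0) = f p + f m := by
      intro f
      rw [← Finset.add_sum_erase _ _ (Finset.mem_univ p),
        ← Finset.add_sum_erase _ _ (Finset.mem_erase.2 ⟨hmp, Finset.mem_univ m⟩),
        Finset.sum_eq_zero (s := (Finset.univ.erase p).erase m)]
      · rw [if_pos hp, if_pos hm, add_zero]
      · intro i hi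
        have h2 := (Finset.mem_erase.1 hi).1
        have h3 := (Finset.mem_erase.1 (Finset.mem_erase.1 hi).2).1
        rw [if_neg fun h => (honly i h).elim h3 h2]
    have hqm : q m = -q p := by
      have h1 := hq1 k
      rw [hsum] at h1
      linarith
    have hqp := hqne p hp
    obtain ⟨y₁, hy₁⟩ := hA p hp
    obtain ⟨y₂, hy₂⟩ := hA m hm
    have ht₁ := hzero p y₁ hy₁
    have ht₂ := hzero m y₂ hy₂
    -- the other coordinates move less
    have hless : ∀ j, j ≠ p → j ≠ m → |q j| < |q p| := by
      intro j hjp hjm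
      have h1 := ht y₁ j
      have h2 := ht y₂ j
      have h3 : 0 < ‖G y₁ j‖ ^ 2 := by
        have : G y₁ j ≠ 0 := fun h => hnt y₁ j p hjp h hy₁
        positivity
      have h4 : 0 < ‖G y₂ j‖ ^ 2 := by
        have : G y₂ j ≠ 0 := fun h => hnt y₂ j m hjm h hy₂
        positivity
      have h5 : 0 < τ₀ + t y₁ * q j := by linarith
      have h6 : 0 < τ₀ + t y₂ * q j := by linarith
      have h7 : t y₂ * q p = τ₀ := by
        rw [hqm] at ht₂; linarith
      have hqp2 : 0 < q p ^ 2 := by positivity
      have h8 : 0 < τ₀ * (q p ^ 2 - q p * q j) := by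
        have h9 := mul_pos h5 hqp2
        have h10 : (τ₀ + t y₁ * q j) * q p ^ 2 = τ₀ * (q p ^ 2 - q p * q j) := by
          linear_combination (q p * q j) * ht₁
        rw [h10] at h9; exact h9
      have h11 : 0 < τ₀ * (q p ^ 2 + q p * q j) := by
        have h9 := mul_pos h6 hqp2
        have h10 : (τ₀ + t y₂ * q j) * q p ^ 2 = τ₀ * (q p ^ 2 + q p * q j) := by
          linear_combination (q p * q j) * h7
        rw [h10] at h9; exact h9
      have h12 := (mul_pos_iff_of_pos_left hpos).1 h8
      have h13 := (mul_pos_iff_of_pos_left hpos).1 h11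
      have h14 : |q p * q j| < q p ^ 2 := abs_lt.2 ⟨by linarith, by linarith⟩
      rw [abs_mul, ← sq_abs, sq] at h14
      exact lt_of_mul_lt_mul_left h14 (abs_nonneg _)
    -- a point of the torus on the open orbit
    have hys : ∃ ys, ∀ i, G ys i ≠ 0 := by
      have hc : Continuous fun y => ‖G y p‖ ^ 2 :=
        ((continuous_apply p).comp hG.continuous).norm.pow 2
      have h1 : ‖G y₁ p‖ ^ 2 ≤ τ₀ := by rw [hy₁]; simp; exact hpos.le
      have h2 : τ₀ ≤ ‖G y₂ p‖ ^ 2 := by
        have h3 := ht y₂ p
        rw [hqm] at ht₂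
        linarith
      obtain ⟨ys, hys⟩ := mem_range_of_exists_le_of_exists_ge hc ⟨y₁, h1⟩ ⟨y₂, h2⟩
      refine ⟨ys, fun i h => ?_⟩
      have h3 := ht ys p
      simp only at hys
      rw [hys, sub_self] at h3
      have h4 := (mul_eq_zero.1 h3.symm).resolve_right hqp
      have h5 := ht ys i
      rw [h4, zero_mul, h] at h5
      simp at h5
      linarith
    obtain ⟨ys, hys⟩ := hys
    have hq' : ∀ j, j ≠ p → j ≠ m → q j = 0 := by
      intro j hjp hjm
      obtain ⟨n, hn⟩ := integral_dir b e w τ₀ hF q hq0 hq1 hq2 p m hmp.symm (hp.trans hm.symm)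
        hqp y₁ hy₁ ys hys j hjp hjm
      have h1 := hless j hjp hjm
      rw [hn, abs_mul] at h1
      have h2 : 0 < |q p| := abs_pos.2 hqp
      have h3 : |(n : ℝ)| < 1 := by
        by_contra h4
        push Not at h4
        have := mul_le_mul_of_nonneg_right h4 h2.le
        linarith
      have h4 : |n| < 1 := by exact_mod_cast h3
      have h5 : n = 0 := Int.abs_lt_one_iff.1 h4
      rw [hn, h5]; simp
    have hw : ∀ a, w a p = w a m := by
      intro a
      have h1 := hq2 a
      rw [← Finset.add_sum_erase _ _ (Finset.mem_univ p),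
        ← Finset.add_sum_erase _ _ (Finset.mem_erase.2 ⟨hmp, Finset.mem_univ m⟩),
        Finset.sum_eq_zero (s := (Finset.univ.erase p).erase m)] at h1
      · rw [hqm] at h1
        have h2 : (w a p - w a m) * q p = 0 := by linarith
        have h3 := (mul_eq_zero.1 h2).resolve_right hqp
        linarith
      · intro i hi
        have h2 := (Finset.mem_erase.1 hi).1
        have h3 := (Finset.mem_erase.1 (Finset.mem_erase.1 hi).2).1
        rw [hq' i h3 h2, mul_zero]
    -- the projection to the factor is a curve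
    have hline : ContDiff ℝ ∞ (fun s : ℝ => (fun _ : Unit => s)) :=
      contDiff_pi.2 fun _ => contDiff_id
    have hG1 : ContDiff ℝ ∞ (fun s : ℝ => G (fun _ => s) p) :=
      contDiff_pi.1 (hG.comp hline) p
    have hG2 : ContDiff ℝ ∞ (fun s : ℝ => G (fun _ => s) m) :=
      contDiff_pi.1 (hG.comp hline) m
    obtain ⟨a₁, a₂, ha⟩ := curve_misses hG1 hG2 (fun s => by
      by_contra h
      push Not at h
      exact hnt _ p m hmp.symm h.1 h.2)
    refine ⟨fun i => if i = p then a₁ else if i = m then a₂ else 0, fun x => ?_⟩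
    have h1 : (∑ i, if b i = k then (if i = p then a₁ else if i = m then a₂ else 0) *
        wsweep w G x i else 0) =
        E (wang w x p) * (a₁ * G (low x) p + a₂ * G (low x) m) := by
      rw [← Finset.add_sum_erase _ _ (Finset.mem_univ p),
        ← Finset.add_sum_erase _ _ (Finset.mem_erase.2 ⟨hmp, Finset.mem_univ m⟩),
        Finset.sum_eq_zero (s := (Finset.univ.erase p).erase m)]
      · rw [if_pos hp, if_pos hm, if_pos rfl, if_neg hmp, if_pos rfl, wsweep_eq, wsweep_eq]
        have h2 : wang w x m = wang w x p := by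
          unfold wang
          exact Finset.sum_congr rfl fun a _ => by rw [hw]
        rw [h2]; ring
      · intro i hi
        have h2 := (Finset.mem_erase.1 hi).1
        have h3 := (Finset.mem_erase.1 (Finset.mem_erase.1 hi).2).1
        rw [if_neg fun h => (honly i h).elim h3 h2]
    rw [h1]
    have h2 : low x = fun _ => x (Sum.inr ()) := rfl
    rw [h2]
    exact mul_ne_zero (E_ne _) (ha _)

end

end Pool.Agent.Lib.MP_a9a507_gt
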